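import Pool.Agent.N404.LF.Stm

set_option autoImplicit false

/-!
# Project KL (MP_c81d26_co): signings of random lifts of matrices. Definitions and statements.
-/

namespace Pool.Agent.N404.KL

open Finset Classical Pool.Agent.N404.LF

/-- The sign of a bit. -/
def sg (b : Bool) : ℝ := if b then 1 else -1

/-- The tent function with support `[-C, C]`. -/
noncomputable def tent (C u : ℝ) : ℝ := max 0 (1 - |u| / C)

/-! ### leaves -/

/-- Random permutations and types, upper bound, for several permutations. -/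
def S_UPG : Prop := ∀ (J T : Type) [Fintype J] [DecidableEq J] [Fintype T] (N : ℕ)
  (f : J → Fin N → T) (W : (J → T) → ℝ), 1 ≤ N → (∀ s, 0 ≤ W s) →
  ∑ π : J → Equiv.Perm (Fin N), ∏ a, W (fun j => f j (π j a)) ≤
    ((N.factorial : ℝ) * (3 * ((N : ℝ) + 1)) ^ Fintype.card T) ^ Fintype.card J *
      (∑ s : J → T, (∏ j, (cnt (f j) (s j) : ℝ) / N) * W s) ^ N

/-- Lower bound for balanced signings. -/
def S_LOWB : Prop := ∀ (J : Type) [Fintype J] [DecidableEq J] (M : ℕ)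
  (f : J → Fin (2 * M) → Bool) (W : (J → Bool) → ℝ), (∀ s, 0 ≤ W s) →
  (∀ s, W (fun j => !(s j)) = W s) → (∀ j, cnt (f j) true = M) →
  ((2 * M).factorial : ℝ) ^ Fintype.card J * (∑ s, W s) ^ (2 * M) ≤
    ((2 : ℝ) ^ (2 * M) * (2 * (M : ℝ) + 1)) ^ Fintype.card J *
      ∑ π : J → Equiv.Perm (Fin (2 * M)), ∏ a, W (fun j => f j (π j a))

/-- The sum over one fibre. -/
def S_HOEF : Prop := ∀ (N : ℕ) (x : Fin N → Bool),
  ∑ y : Fin N → Bool, Real.exp ((∑ a, sg (x a) * sg (y a)) ^ 2 / (2 * N)) ≤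
    ((N : ℝ) + 1) * 2 ^ N

/-- Fourier expansion of an even function on the cube. -/
def S_FOUR : Prop := ∀ (J : Type) [Fintype J] [DecidableEq J] (g : (J → Bool) → ℝ) (ρ : J → ℝ),
  (∀ e, g (fun j => !(e j)) = g e) → (∀ j, |ρ j| ≤ 1) →
  ∑ e, ∑ e', g e * g e' * ∏ j, (1 + ρ j * sg (e j) * sg (e' j)) ≤
    (∑ e, g e) ^ 2 + ∑ j, ρ j ^ 2 * ∫ s in (0 : ℝ)..1, ∑ e, ∑ e',
      g e * g e' * (sg (e j) * sg (e' j)) * ∏ k ∈ univ.erase j, (1 + s * sg (e k) * sg (e' k))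

/-- The differences of the tent function. -/
def S_DER : Prop := ∀ (J : Type) [Fintype J] [DecidableEq J] (α : J → ℝ) (C s : ℝ) (j : J),
  1 ≤ C → (∀ k, |α k| ≤ 1) → 0 ≤ s → s ≤ 1 →
  ∑ e : J → Bool, ∑ e' : J → Bool,
      tent C (∑ k, α k * sg (e k)) * tent C (∑ k, α k * sg (e' k)) * (sg (e j) * sg (e' j)) *
        ∏ k ∈ univ.erase j, (1 + s * sg (e k) * sg (e' k)) ≤
    α j ^ 2 / C ^ 2 * ∑ e : J → Bool, ∑ e' : J → Bool,
      if |∑ k ∈ univ.erase j, α k * sg (e k)| ≤ C + 1 ∧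
          |∑ k ∈ univ.erase j, α k * sg (e' k)| ≤ C + 1 then
        ∏ k ∈ univ.erase j, (1 + s * sg (e k) * sg (e' k)) else 0

/-- Small ball probability of a sum of independent signs (which may be biased). -/
def S_ESS : Prop := ∀ (J : Type) [Fintype J] [DecidableEq J] (β s : J → ℝ) (c : ℝ)
  (e : J → Bool), (∀ k, |β k| ≤ 1) → (∀ k, 0 ≤ s k) → (∀ k, s k ≤ 1) → 1 ≤ c →
  (∑ e' : J → Bool, if |∑ k, β k * sg (e' k)| ≤ c then
      ∏ k, ((1 + s k * sg (e k) * sg (e' k)) / 2) else 0) *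
    Real.sqrt (∑ k, (1 - s k) * β k ^ 2) ≤ 4 * c

/-- Lower bound of the probability of a central interval. -/
def S_REFL : Prop := ∀ (J : Type) [Fintype J] [DecidableEq J] (α : J → ℝ) (h σ : ℝ),
  (∀ j, |α j| ≤ 1) → 2 ≤ h → h ≤ σ → ∑ j, α j ^ 2 ≤ σ ^ 2 →
  h * 2 ^ Fintype.card J ≤
    8 * σ * ((univ.filter fun e : J → Bool => |∑ j, α j * sg (e j)| ≤ h).card : ℝ)

/-- Repair of a signing with few bad rows in a locally sparse matrix. -/
def S_REP : Prop := ∀ (Rw Cl J : Type) [Fintype Rw] [Fintype Cl] [Fintype J]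
  (c : Rw → J → Cl) (a : Rw → J → ℝ) (x : Cl → ℝ) (C₀ : ℝ) (m t : ℕ) (B : Finset Rw),
  (∀ r, Function.Injective (c r)) → (∀ r j, |a r j| ≤ 1) → (∀ v, x v = 1 ∨ x v = -1) →
  0 ≤ C₀ → B.card ≤ t → 2 * t * (1 + Fintype.card J) ≤ m →
  (∀ (S : Finset Rw) (T : Finset Cl), S.Nonempty → S.card + T.card ≤ m →
    5 * (univ.filter fun p : Rw × J => p.1 ∈ S ∧ c p.1 p.2 ∈ T).card <
      6 * (S.card + T.card)) →
  (∀ r, r ∉ B → |∑ j, a r j * x (c r j)| ≤ C₀) →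
  ∃ y : Cl → ℝ, (∀ v, y v = 1 ∨ y v = -1) ∧ ∀ r, |∑ j, a r j * y (c r j)| ≤ C₀ + 4

/-- Small sets of vertices of a random lift span few edges, sharper form. -/
def S_SPA2 : Prop := ∀ (V I : Type) [Fintype V] [Fintype I] [DecidableEq I] (s t : I → V),
  ∃ C : ℕ, ∀ N m : ℕ, C * m ≤ N →
    N * (univ.filter fun π : I → Equiv.Perm (Fin N) => ∃ U : Finset (V × Fin N),
      U.Nonempty ∧ U.card ≤ m ∧ 6 * U.card ≤ 5 * eU s t π U).card ≤
    C * m * N.factorial ^ Fintype.card I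

/-! ### assembly -/

/-- The second moment of the number of the weighted signings of one row. -/
def S_RAT : Prop := ∀ (J : Type) [Fintype J] [DecidableEq J] (α ρ : J → ℝ),
  (∀ j, |α j| ≤ 1) → (∀ j, |ρ j| ≤ 1) →
  0 < ∑ e : J → Bool, tent 300 (∑ k, α k * sg (e k)) ∧
  ∑ e : J → Bool, ∑ e' : J → Bool,
      tent 300 (∑ k, α k * sg (e k)) * tent 300 (∑ k, α k * sg (e' k)) *
        ∏ j, (1 + ρ j * sg (e j) * sg (e' j)) ≤
    (∑ e : J → Bool, tent 300 (∑ k, α k * sg (e k))) ^ 2 *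
      Real.exp (1 / 2 * ∑ j, α j ^ 2 * ρ j ^ 2)

/-- Many lifts have a good signing. -/
def S_MOMK : Prop := ∀ (R J : Type) [Fintype R] [DecidableEq R] [Fintype J] [DecidableEq J]
  (A : R → J → ℝ), (∀ j, ∑ i, A i j ^ 2 ≤ 1) → ∃ C : ℕ, ∀ M N : ℕ, 1 ≤ M → N = 2 * M →
    (N.factorial : ℝ) ^ Fintype.card (R × J) ≤ (3 * ((N : ℝ) + 1)) ^ C *
      ((univ.filter fun π : R × J → Equiv.Perm (Fin N) => ∃ x : J → Fin N → Bool,
        ∀ i a, |∑ j, A i j * sg (x j (π (i, j) a))| ≤ 300).card : ℝ)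

end Pool.Agent.N404.KL
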