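import Pool.Agent.N404.KL.GMain

set_option autoImplicit false
set_option linter.unusedSectionVars false

/-! The Beck-Fiala bound for almost all lifts of a set system. -/

namespace Pool.Agent.N404.KL

open Finset Classical Pool.Agent.N404.LF

section
variable {R J : Type} [Fintype R] [DecidableEq R] [Fintype J] [DecidableEq J]

theorem ind_nonneg (S : Finset J) (K : ℝ) (e : J → Bool) : 0 ≤ ind S K e := by
  unfold ind
  split_ifs <;> norm_num

theorem ind_even (S : Finset J) (K : ℝ) (e : J → Bool) :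
    ind S K (fun j => !(e j)) = ind S K e := by
  have h : ∑ j ∈ S, sg (!(e j)) = -∑ j ∈ S, sg (e j) := by
    rw [← Finset.sum_neg_distrib]
    refine Finset.sum_congr rfl fun j _ => ?_
    cases e j <;> simp [sg]
  unfold ind
  rw [h, abs_neg]

theorem ind_empty (K : ℝ) (hK : 0 ≤ K) (e : J → Bool) : ind (∅ : Finset J) K e = 1 := by
  unfold ind
  rw [Finset.sum_empty, abs_zero, if_pos hK]

theorem ind_sum_empty (K : ℝ) (hK : 0 ≤ K) :
    ∑ e : J → Bool, ind (∅ : Finset J) K e = 2 ^ Fintype.card J := by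
  rw [Finset.sum_congr rfl (fun e _ => ind_empty K hK e), Finset.sum_const, card_univ,
    Fintype.card_fun, Fintype.card_bool, nsmul_eq_mul, mul_one]
  norm_num

theorem ind_sum_pos (hBIN : S_BIN) (S : Finset J) (t K : ℕ) (ht : 1 ≤ t)
    (hK : 5 / 4 * Real.sqrt t + 1 ≤ K) : 0 < ∑ e : J → Bool, ind S (K : ℝ) e := by
  have hK0 : (0 : ℝ) ≤ K := Nat.cast_nonneg _
  rcases S.eq_empty_or_nonempty with rfl | hS
  · rw [ind_sum_empty _ hK0]; positivity
  · have h1 := hBIN J S t K ht hS hK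
    have htpos : (0 : ℝ) < t := by exact_mod_cast ht
    have h2 : 0 < 2 * (t : ℝ) * 2 ^ Fintype.card J := by positivity
    have h3 : 0 < 2 * (t : ℝ) + S.card := by positivity
    exact (mul_pos_iff_of_pos_left h3).1 (h2.trans_le h1)

theorem ratW_ind (hSYM : S_SYM) (hBIN : S_BIN) (S : Finset J) (t K : ℕ) (ht : 1 ≤ t)
    (hK : 5 / 4 * Real.sqrt t + 1 ≤ K) :
    RatW (ind S (K : ℝ)) (fun j => if j ∈ S then 1 / (t : ℝ) else 0) := by
  intro ρ hρ
  have hK0 : (0 : ℝ) ≤ K := Nat.cast_nonneg _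
  have htpos : (0 : ℝ) < t := by exact_mod_cast ht
  rcases S.eq_empty_or_nonempty with rfl | hS
  · rw [ind_sum_empty _ hK0]
    have h1 : ∑ e : J → Bool, ∑ e' : J → Bool, ind (∅ : Finset J) (K : ℝ) e *
        ind (∅ : Finset J) (K : ℝ) e' * ∏ j, (1 + ρ j * sg (e j) * sg (e' j)) =
        (2 ^ Fintype.card J) ^ 2 := by
      have h2 : ∀ e : J → Bool, ∑ e' : J → Bool, ind (∅ : Finset J) (K : ℝ) e *
        ind (∅ : Finset J) (K : ℝ) e' * ∏ j, (1 + ρ j * sg (e j) * sg (e' j)) =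
        2 ^ Fintype.card J := by
        intro e
        have h3 : ∀ e' : J → Bool, ind (∅ : Finset J) (K : ℝ) e *
          ind (∅ : Finset J) (K : ℝ) e' * ∏ j, (1 + ρ j * sg (e j) * sg (e' j)) =
          ∏ j, (1 + ρ j * sg (e j) * sg (e' j)) := by
          intro e'
          rw [ind_empty _ hK0, ind_empty _ hK0, one_mul, one_mul]
        rw [Finset.sum_congr rfl (fun e' _ => h3 e'),
          ← Fintype.prod_sum (fun (j : J) (b : Bool) => 1 + ρ j * sg (e j) * sg b)]
        have h4 : ∀ j, ∑ b : Bool, (1 + ρ j * sg (e j) * sg b) = 2 := by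
          intro j
          rw [Fintype.sum_bool]
          have e1 : sg true = 1 := rfl
          have e2 : sg false = -1 := rfl
          rw [e1, e2]
          ring
        rw [Finset.prod_congr rfl (fun j _ => h4 j), Finset.prod_const, card_univ]
      rw [Finset.sum_congr rfl (fun e _ => h2 e), Finset.sum_const, card_univ,
        Fintype.card_fun, Fintype.card_bool, nsmul_eq_mul]
      push_cast
      ring
    rw [h1]
    simp
  · have h1 := hSYM J S (K : ℝ) ρ hS hρ
    have h2 := hBIN J S t K ht hS hK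
    set P := ∑ e : J → Bool, ind S (K : ℝ) e with hP
    have hP0 : 0 ≤ P := Finset.sum_nonneg fun e _ => ind_nonneg S _ e
    have hScard : (0 : ℝ) < S.card := by exact_mod_cast hS.card_pos
    refine h1.trans ?_
    set Q := ∑ j ∈ S, ρ j ^ 2 with hQ
    have hQ0 : 0 ≤ Q := Finset.sum_nonneg fun j _ => sq_nonneg _
    have h3 : Q / S.card * (2 ^ Fintype.card J * P - P ^ 2) ≤ P ^ 2 * (Q / (2 * t)) := by
      rw [div_mul_eq_mul_div, div_le_iff₀ hScard]
      have h4 : P ^ 2 * (Q / (2 * t)) * S.card = (P * Q) * (S.card * P) / (2 * t) := by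
        field_simp
      rw [h4, le_div_iff₀ (by positivity)]
      have h5 : 2 * (t : ℝ) * 2 ^ Fintype.card J - 2 * t * P ≤ S.card * P := by
        linarith
      calc Q * (2 ^ Fintype.card J * P - P ^ 2) * (2 * t) =
          (P * Q) * (2 * (t : ℝ) * 2 ^ Fintype.card J - 2 * t * P) := by ring
        _ ≤ (P * Q) * (S.card * P) := mul_le_mul_of_nonneg_left h5 (mul_nonneg hP0 hQ0)
    have h6 : 1 / 2 * ∑ j, (if j ∈ S then 1 / (t : ℝ) else 0) * ρ j ^ 2 = Q / (2 * t) := by
      have h7 : ∑ j, (if j ∈ S then 1 / (t : ℝ) else 0) * ρ j ^ 2 = ∑ j ∈ S, 1 / (t : ℝ) * ρ j ^ 2 := by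
        rw [← Finset.sum_filter_add_sum_filter_not univ (fun j => j ∈ S)]
        have e1 : ∑ j ∈ univ.filter (fun j => ¬ j ∈ S), (if j ∈ S then 1 / (t : ℝ) else 0) * ρ j ^ 2
            = 0 := by
          refine Finset.sum_eq_zero fun j hj => ?_
          rw [if_neg (mem_filter.1 hj).2, zero_mul]
        have e2 : univ.filter (fun j => j ∈ S) = S := by ext j; simp
        rw [e1, add_zero, e2]
        refine Finset.sum_congr rfl fun j hj => ?_
        rw [if_pos hj]
      rw [h7, ← Finset.mul_sum, ← hQ]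
      field_simp
    rw [h6]
    have h8 : Q / (2 * t) + 1 ≤ Real.exp (Q / (2 * t)) := Real.add_one_le_exp _
    calc P ^ 2 + Q / S.card * (2 ^ Fintype.card J * P - P ^ 2) ≤ P ^ 2 + P ^ 2 * (Q / (2 * t)) := by
          linarith
      _ = P ^ 2 * (Q / (2 * t) + 1) := by ring
      _ ≤ P ^ 2 * Real.exp (Q / (2 * t)) := mul_le_mul_of_nonneg_left h8 (sq_nonneg _)

end

theorem proof_BF (hUPG : S_UPG) (hHOEF : S_HOEF) (hLOWB : S_LOWB) (hSYM : S_SYM) (hBIN : S_BIN)
    (hISO : S_ISO) (hSPA : S_SPA2) (hREP : S_REP) (hEV : S_EV)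
    (R J : Type) [Fintype R] [DecidableEq R] [Fintype J] [DecidableEq J] (S : R → Finset J)
    (t : ℕ) (ht : 1 ≤ t) (hS : ∀ j, (univ.filter fun i => j ∈ S i).card ≤ t) :
    ∃ N₀ : ℕ, ∀ N : ℕ, N₀ ≤ N →
      (N : ℝ) ^ (1 / 3 : ℝ) * ((univ.filter fun π : R × J → Equiv.Perm (Fin N) =>
        ¬ Good (fun i j => if j ∈ S i then (1 : ℝ) else 0) (5 / 4 * Real.sqrt t + 6) π).card : ℝ) ≤
      (N.factorial : ℝ) ^ Fintype.card (R × J) := by
  set K : ℕ := ⌈5 / 4 * Real.sqrt t⌉₊ + 1 with hK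
  have hsq : 0 ≤ 5 / 4 * Real.sqrt t := by positivity
  have hK1 : 5 / 4 * Real.sqrt t + 1 ≤ K := by
    rw [hK]; push_cast
    have := Nat.le_ceil (5 / 4 * Real.sqrt t)
    linarith
  have hK2 : (K : ℝ) ≤ 5 / 4 * Real.sqrt t + 2 := by
    rw [hK]; push_cast
    have := (Nat.ceil_lt_add_one hsq).le
    linarith
  have htpos : (0 : ℝ) < t := by exact_mod_cast ht
  obtain ⟨C, hC⟩ := momG hUPG hHOEF hLOWB (fun i => ind (S i) (K : ℝ))
    (fun i e => ind_nonneg _ _ e) (fun i e => ind_even _ _ e)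
    (fun i => ind_sum_pos hBIN (S i) t K ht hK1)
    (fun i j => if j ∈ S i then 1 / (t : ℝ) else 0)
    (fun i => ratW_ind hSYM hBIN (S i) t K ht hK1) (by
      intro j
      rw [← Finset.sum_filter, Finset.sum_const, nsmul_eq_mul, mul_one_div, div_le_one htpos]
      exact_mod_cast hS j)
  obtain ⟨N₀, hN₀⟩ := proof_MAING hISO hSPA hREP hEV R J
    (fun i j => if j ∈ S i then (1 : ℝ) else 0) (K : ℝ) (Nat.cast_nonneg _) (by
      intro i j
      show |if j ∈ S i then (1 : ℝ) else 0| ≤ 1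
      split_ifs <;> simp) ⟨C, fun M N hM hN => by
      refine (hC M N hM hN).trans ?_
      refine mul_le_mul_of_nonneg_left ?_ (by positivity)
      refine Nat.cast_le.2 (card_le_card ?_)
      intro π hπ
      rw [mem_filter] at hπ ⊢
      refine ⟨mem_univ _, ?_⟩
      obtain ⟨x, hx⟩ := hπ.2
      refine ⟨x, fun i a => ?_⟩
      have h1 := hx i a
      have h2 : ∑ j, (if j ∈ S i then (1 : ℝ) else 0) * sg (x j (π (i, j) a)) =
          ∑ j ∈ S i, sg (x j (π (i, j) a)) := by
        simp only [ite_mul, one_mul, zero_mul]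
        rw [← Finset.sum_filter]
        congr 1
        ext j; simp
      rw [h2]
      by_contra hcon
      apply h1
      unfold ind
      rw [if_neg hcon]⟩
  refine ⟨N₀, fun N hN => le_trans (mul_le_mul_of_nonneg_left ?_ (by positivity)) (hN₀ N hN)⟩
  refine Nat.cast_le.2 (card_le_card ?_)
  intro π hπ
  rw [mem_filter] at hπ ⊢
  refine ⟨mem_univ _, fun hg => hπ.2 ?_⟩
  obtain ⟨y, hy1, hy2⟩ := hg
  exact ⟨y, hy1, fun i a => (hy2 i a).trans (by linarith)⟩

end Pool.Agent.N404.KL
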