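import Pool.Agent.N404.KL.Stm

set_option autoImplicit false

/-!
# Project KL, second part (MP_e8ee11_co): colourings of random lifts of set systems. Statements.
-/

namespace Pool.Agent.N404.KL

open Finset Classical Pool.Agent.N404.LF

/-- The indicator of `|∑_{j ∈ S} e_j| ≤ K`. -/
noncomputable def ind {J : Type} (S : Finset J) (K : ℝ) (e : J → Bool) : ℝ :=
  if |∑ j ∈ S, sg (e j)| ≤ K then 1 else 0

/-- Fourier expansion for a symmetric function. -/
def S_SYM : Prop := ∀ (J : Type) [Fintype J] [DecidableEq J] (S : Finset J) (K : ℝ) (ρ : J → ℝ),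
  S.Nonempty → (∀ j, |ρ j| ≤ 1) →
  ∑ e : J → Bool, ∑ e' : J → Bool, ind S K e * ind S K e' *
      ∏ j, (1 + ρ j * sg (e j) * sg (e' j)) ≤
    (∑ e : J → Bool, ind S K e) ^ 2 + (∑ j ∈ S, ρ j ^ 2) / S.card *
      (2 ^ Fintype.card J * (∑ e : J → Bool, ind S K e) - (∑ e : J → Bool, ind S K e) ^ 2)

/-- Lower bound for the central binomial probabilities. -/
def S_BIN : Prop := ∀ (J : Type) [Fintype J] [DecidableEq J] (S : Finset J) (t K : ℕ),
  1 ≤ t → S.Nonempty → 5 / 4 * Real.sqrt t + 1 ≤ K →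
  2 * (t : ℝ) * 2 ^ Fintype.card J ≤ (2 * (t : ℝ) + S.card) * ∑ e : J → Bool, ind S (K : ℝ) e

end Pool.Agent.N404.KL
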