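import Pool.Agent.N404.KL.Mom2
import Pool.Agent.N404.KL.Stm2

set_option autoImplicit false
set_option linter.unusedSectionVars false

/-! The second moment, for general weights. -/

namespace Pool.Agent.N404.KL

open Finset Classical Pool.Agent.N404.LF

section
variable {R J : Type} [Fintype R] [DecidableEq R] [Fintype J] [DecidableEq J]

/-- the weighted number of the balanced signings -/
noncomputable def ZG (w : R → (J → Bool) → ℝ) (N M : ℕ) (π : R × J → Equiv.Perm (Fin N)) : ℝ :=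
  ∑ x ∈ Balf J N M, ∏ i, ∏ a, w i (fun j => x j (π (i, j) a))

theorem ZG_nonneg (w : R → (J → Bool) → ℝ) (hw : ∀ i e, 0 ≤ w i e) (N M : ℕ)
    (π : R × J → Equiv.Perm (Fin N)) : 0 ≤ ZG w N M π :=
  Finset.sum_nonneg fun _ _ => Finset.prod_nonneg fun _ _ => Finset.prod_nonneg fun _ _ =>
    hw _ _

theorem sum_ZG_ge (hLOWB : S_LOWB) (w : R → (J → Bool) → ℝ) (hw : ∀ i e, 0 ≤ w i e)
    (heven : ∀ i e, w i (fun j => !(e j)) = w i e) (M : ℕ) :
    ((Balf J (2 * M) M).card : ℝ) * (((2 * M).factorial : ℝ) ^ Fintype.card J) ^ Fintype.card R *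
      (∏ i, (∑ e, w i e) ^ (2 * M)) ≤
    (((2 : ℝ) ^ (2 * M) * (2 * (M : ℝ) + 1)) ^ Fintype.card J) ^ Fintype.card R *
      ∑ π, ZG w (2 * M) M π := by
  unfold ZG
  rw [Finset.sum_comm, Finset.mul_sum]
  have h0 : ((Balf J (2 * M) M).card : ℝ) *
      (((2 * M).factorial : ℝ) ^ Fintype.card J) ^ Fintype.card R *
      (∏ i, (∑ e, w i e) ^ (2 * M)) = ∑ _x ∈ Balf J (2 * M) M,
      ((((2 * M).factorial : ℝ) ^ Fintype.card J) ^ Fintype.card R *
      (∏ i, (∑ e, w i e) ^ (2 * M))) := by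
    rw [Finset.sum_const, nsmul_eq_mul]; ring
  rw [h0]
  refine Finset.sum_le_sum fun x hx => ?_
  have hx' := (mem_filter.1 hx).2
  rw [prod_split (fun i τ => ∏ a, w i (fun j => x j (τ j a)))]
  have e1 : (((2 * M).factorial : ℝ) ^ Fintype.card J) ^ Fintype.card R =
      ∏ _i : R, (((2 * M).factorial : ℝ) ^ Fintype.card J) := by
    rw [Finset.prod_const, card_univ]
  have e2 : (((2 : ℝ) ^ (2 * M) * (2 * (M : ℝ) + 1)) ^ Fintype.card J) ^ Fintype.card R =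
      ∏ _i : R, (((2 : ℝ) ^ (2 * M) * (2 * (M : ℝ) + 1)) ^ Fintype.card J) := by
    rw [Finset.prod_const, card_univ]
  rw [e1, e2, ← Finset.prod_mul_distrib, ← Finset.prod_mul_distrib]
  have htot : ∀ i, 0 ≤ ∑ e, w i e := fun i => Finset.sum_nonneg fun e _ => hw i e
  refine Finset.prod_le_prod (fun i _ => mul_nonneg (by positivity) (pow_nonneg (htot i) _))
    fun i _ => ?_
  exact hLOWB J M x (w i) (hw i) (heven i) hx'

/-- the hypothesis on the weights -/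
def RatW (w : (J → Bool) → ℝ) (c : J → ℝ) : Prop := ∀ ρ : J → ℝ, (∀ j, |ρ j| ≤ 1) →
  ∑ e : J → Bool, ∑ e' : J → Bool, w e * w e' * ∏ j, (1 + ρ j * sg (e j) * sg (e' j)) ≤
    (∑ e : J → Bool, w e) ^ 2 * Real.exp (1 / 2 * ∑ j, c j * ρ j ^ 2)

theorem row_upG (hUPG : S_UPG) (w : (J → Bool) → ℝ) (hw : ∀ e, 0 ≤ w e) (c : J → ℝ)
    (hrat : RatW w c) {N M : ℕ}
    (hN : N = 2 * M) (hN1 : 1 ≤ N) (x y : J → Fin N → Bool) (hx : ∀ j, cnt (x j) true = M)
    (hy : ∀ j, cnt (y j) true = M) :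
    ∑ τ : J → Equiv.Perm (Fin N), ∏ a, (w (fun j => x j (τ j a)) * w (fun j => y j (τ j a))) ≤
      ((N.factorial : ℝ) * (3 * ((N : ℝ) + 1)) ^ 4) ^ Fintype.card J *
        ((1 / 4) ^ Fintype.card J * ((∑ e, w e) ^ 2 *
          Real.exp (1 / 2 * ∑ j, c j * ovl (x j) (y j) ^ 2))) ^ N := by
  have h1 := hUPG J (Bool × Bool) N (fun j a => (x j a, y j a))
    (fun s => w (fun j => (s j).1) * w (fun j => (s j).2)) hN1
    (fun s => mul_nonneg (hw _) (hw _))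
  have hcard : Fintype.card (Bool × Bool) = 4 := rfl
  rw [hcard] at h1
  refine h1.trans ?_
  refine mul_le_mul_of_nonneg_left ?_ (by positivity)
  refine pow_le_pow_left₀ ?_ ?_ N
  · refine Finset.sum_nonneg fun s _ => mul_nonneg (Finset.prod_nonneg fun j _ => by positivity)
      (mul_nonneg (hw _) (hw _))
  have h2 : ∑ s : J → Bool × Bool, (∏ j, (cnt ((fun j a => (x j a, y j a)) j) (s j) : ℝ) / N) *
      (w (fun j => (s j).1) * w (fun j => (s j).2)) =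
      (1 / 4) ^ Fintype.card J * ∑ e : J → Bool, ∑ e' : J → Bool, w e * w e' *
        ∏ j, (1 + ovl (x j) (y j) * sg (e j) * sg (e' j)) := by
    rw [Finset.mul_sum, ← Equiv.sum_comp (Equiv.arrowProdEquivProdArrow J (fun _ => Bool)
      (fun _ => Bool)).symm, Fintype.sum_prod_type]
    refine Finset.sum_congr rfl fun e _ => ?_
    rw [Finset.mul_sum]
    refine Finset.sum_congr rfl fun e' _ => ?_
    have e3 : ∀ j, (cnt ((fun j a => (x j a, y j a)) j)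
        (((Equiv.arrowProdEquivProdArrow J (fun _ => Bool) (fun _ => Bool)).symm (e, e')) j) : ℝ) / N
        = (1 / 4) * (1 + ovl (x j) (y j) * sg (e j) * sg (e' j)) := by
      intro j
      have := cnt_pair hN hN1 (x j) (y j) (hx j) (hy j) (e j) (e' j)
      unfold ovl
      rw [show ((Equiv.arrowProdEquivProdArrow J (fun _ => Bool) (fun _ => Bool)).symm (e, e')) j =
        (e j, e' j) from rfl]
      rw [this]; ring
    rw [Finset.prod_congr rfl (fun j _ => e3 j), Finset.prod_mul_distrib, Finset.prod_const,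
      card_univ]
    show _ * (w e * w e') = _
    ring
  rw [h2]
  refine mul_le_mul_of_nonneg_left ?_ (by positivity)
  exact hrat (fun j => ovl (x j) (y j)) (fun j => abs_ovl _ _)

theorem ZG_sq (w : R → (J → Bool) → ℝ) (N M : ℕ) (π : R × J → Equiv.Perm (Fin N)) :
    ZG w N M π ^ 2 = ∑ x ∈ Balf J N M, ∑ y ∈ Balf J N M, ∏ i, ∏ a,
      (w i (fun j => x j (π (i, j) a)) * w i (fun j => y j (π (i, j) a))) := by
  unfold ZG
  rw [sq, Finset.sum_mul_sum]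
  refine Finset.sum_congr rfl fun x _ => Finset.sum_congr rfl fun y _ => ?_
  rw [← Finset.prod_mul_distrib]
  exact Finset.prod_congr rfl fun i _ => (Finset.prod_mul_distrib).symm

theorem sum_ZGsq_le (hUPG : S_UPG) (hHOEF : S_HOEF) (w : R → (J → Bool) → ℝ)
    (hw : ∀ i e, 0 ≤ w i e) (c : R → J → ℝ) (hrat : ∀ i, RatW (w i) (c i))
    (hc : ∀ j, ∑ i, c i j ≤ 1) {N M : ℕ} (hN : N = 2 * M) (hN1 : 1 ≤ N) :
    ∑ π, ZG w N M π ^ 2 ≤
      (((N.factorial : ℝ) * (3 * ((N : ℝ) + 1)) ^ 4) ^ Fintype.card J) ^ Fintype.card R *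
      (((1 / 4 : ℝ) ^ Fintype.card J) ^ N) ^ Fintype.card R * (∏ i, (∑ e, w i e) ^ N) ^ 2 *
      (2 ^ N * (((N : ℝ) + 1) * 2 ^ N)) ^ Fintype.card J := by
  have hNpos : (0 : ℝ) < N := by exact_mod_cast hN1
  set K1 : ℝ := (((N.factorial : ℝ) * (3 * ((N : ℝ) + 1)) ^ 4) ^ Fintype.card J) ^ Fintype.card R
    with hK1
  set K2 : ℝ := (((1 / 4 : ℝ) ^ Fintype.card J) ^ N) ^ Fintype.card R with hK2
  set p : ℝ := ∏ i, (∑ e, w i e) ^ N with hp
  have hK10 : 0 ≤ K1 := by positivity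
  have hK20 : 0 ≤ K2 := by positivity
  have hpair : ∀ x ∈ Balf J N M, ∀ y ∈ Balf J N M,
      ∑ π : R × J → Equiv.Perm (Fin N), ∏ i, ∏ a,
      (w i (fun j => x j (π (i, j) a)) * w i (fun j => y j (π (i, j) a))) ≤
      K1 * K2 * p ^ 2 * ∏ j, Real.exp ((∑ a, sg (x j a) * sg (y j a)) ^ 2 / (2 * N)) := by
    intro x hx y hy
    have hx' := (mem_filter.1 hx).2
    have hy' := (mem_filter.1 hy).2
    rw [prod_split (fun i τ => ∏ a,
      (w i (fun j => x j (τ j a)) * w i (fun j => y j (τ j a))))]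
    refine (Finset.prod_le_prod (fun i _ => Finset.sum_nonneg fun τ _ =>
      Finset.prod_nonneg fun a _ => mul_nonneg (hw _ _) (hw _ _))
      (fun i _ => row_upG hUPG (w i) (hw i) (c i) (hrat i) hN hN1 x y hx' hy')).trans ?_
    have e1 : ∀ i, ((N.factorial : ℝ) * (3 * ((N : ℝ) + 1)) ^ 4) ^ Fintype.card J *
        ((1 / 4) ^ Fintype.card J * ((∑ e, w i e) ^ 2 *
          Real.exp (1 / 2 * ∑ j, c i j * ovl (x j) (y j) ^ 2))) ^ N =
        (((N.factorial : ℝ) * (3 * ((N : ℝ) + 1)) ^ 4) ^ Fintype.card J *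
        ((1 / 4) ^ Fintype.card J) ^ N) * (((∑ e, w i e) ^ N) ^ 2 *
          Real.exp (N * (1 / 2 * ∑ j, c i j * ovl (x j) (y j) ^ 2))) := by
      intro i
      have gen : ∀ a b t u : ℝ, a * (b * (t ^ 2 * Real.exp u)) ^ N =
          (a * b ^ N) * ((t ^ N) ^ 2 * Real.exp (N * u)) := by
        intro a b t u
        rw [mul_pow, mul_pow, ← Real.exp_nat_mul, ← pow_mul t, ← pow_mul t, mul_comm 2 N]
        ring
      exact gen _ _ _ _
    rw [Finset.prod_congr rfl (fun i _ => e1 i), Finset.prod_mul_distrib, Finset.prod_const,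
      card_univ, mul_pow, Finset.prod_mul_distrib, Finset.prod_pow, ← Real.exp_sum,
      ← Real.exp_sum, mul_assoc (K1 * K2)]
    refine mul_le_mul_of_nonneg_left ?_ (mul_nonneg hK10 hK20)
    refine mul_le_mul_of_nonneg_left (Real.exp_le_exp.2 ?_) (sq_nonneg _)
    calc ∑ i, (N : ℝ) * (1 / 2 * ∑ j, c i j * ovl (x j) (y j) ^ 2)
        = ∑ j, (∑ i, c i j) * ((∑ a, sg (x j a) * sg (y j a)) ^ 2 / (2 * N)) := by
          rw [← Finset.mul_sum, ← Finset.mul_sum, Finset.sum_comm, Finset.mul_sum, Finset.mul_sum]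
          refine Finset.sum_congr rfl fun j _ => ?_
          rw [← Finset.sum_mul]
          unfold ovl
          field_simp
      _ ≤ ∑ j, 1 * ((∑ a, sg (x j a) * sg (y j a)) ^ 2 / (2 * N)) :=
          Finset.sum_le_sum fun j _ => mul_le_mul_of_nonneg_right (hc j) (by positivity)
      _ = _ := by simp
  have h1 : ∑ π, ZG w N M π ^ 2 ≤ ∑ x ∈ Balf J N M, ∑ y ∈ Balf J N M,
      (K1 * K2 * p ^ 2 * ∏ j, Real.exp ((∑ a, sg (x j a) * sg (y j a)) ^ 2 / (2 * N))) := by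
    rw [Finset.sum_congr rfl (fun π _ => ZG_sq w N M π), Finset.sum_comm]
    refine Finset.sum_le_sum fun x hx => ?_
    rw [Finset.sum_comm]
    exact Finset.sum_le_sum fun y hy => hpair x hx y hy
  refine h1.trans ?_
  have h2 : ∑ x ∈ Balf J N M, ∑ y ∈ Balf J N M,
      (K1 * K2 * p ^ 2 * ∏ j, Real.exp ((∑ a, sg (x j a) * sg (y j a)) ^ 2 / (2 * N))) ≤
      ∑ x : J → Fin N → Bool, ∑ y : J → Fin N → Bool,
      (K1 * K2 * p ^ 2 * ∏ j, Real.exp ((∑ a, sg (x j a) * sg (y j a)) ^ 2 / (2 * N))) := by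
    have hterm : ∀ x y : J → Fin N → Bool, 0 ≤ K1 * K2 * p ^ 2 *
        ∏ j, Real.exp ((∑ a, sg (x j a) * sg (y j a)) ^ 2 / (2 * N)) := fun x y =>
      mul_nonneg (mul_nonneg (mul_nonneg hK10 hK20) (sq_nonneg _))
        (Finset.prod_nonneg fun j _ => (Real.exp_pos _).le)
    refine (Finset.sum_le_sum fun x _ => Finset.sum_le_sum_of_subset_of_nonneg (subset_univ _)
      fun y _ _ => hterm x y).trans ?_
    exact Finset.sum_le_sum_of_subset_of_nonneg (subset_univ _) fun x _ _ =>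
      Finset.sum_nonneg fun y _ => hterm x y
  refine h2.trans ?_
  simp only [← Finset.mul_sum]
  refine mul_le_mul_of_nonneg_left ?_ (mul_nonneg (mul_nonneg hK10 hK20) (sq_nonneg _))
  have h3 : ∀ x : J → Fin N → Bool, ∑ y : J → Fin N → Bool,
      ∏ j, Real.exp ((∑ a, sg (x j a) * sg (y j a)) ^ 2 / (2 * N)) ≤
      (((N : ℝ) + 1) * 2 ^ N) ^ Fintype.card J := by
    intro x
    rw [← Fintype.prod_sum (fun (j : J) (z : Fin N → Bool) =>
      Real.exp ((∑ a, sg (x j a) * sg (z a)) ^ 2 / (2 * N)))]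
    refine (Finset.prod_le_prod (fun j _ => Finset.sum_nonneg fun z _ => (Real.exp_pos _).le)
      (fun j _ => hHOEF N (x j))).trans (le_of_eq ?_)
    rw [Finset.prod_const, card_univ]
  refine (Finset.sum_le_sum fun x _ => h3 x).trans (le_of_eq ?_)
  rw [Finset.sum_const, card_univ, nsmul_eq_mul, Fintype.card_fun, Fintype.card_fun,
    Fintype.card_bool, Fintype.card_fin, Nat.cast_pow, Nat.cast_pow, Nat.cast_ofNat, ← mul_pow]

theorem momG (hUPG : S_UPG) (hHOEF : S_HOEF) (hLOWB : S_LOWB) (w : R → (J → Bool) → ℝ)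
    (hw : ∀ i e, 0 ≤ w i e) (heven : ∀ i e, w i (fun j => !(e j)) = w i e)
    (hwpos : ∀ i, 0 < ∑ e, w i e) (c : R → J → ℝ) (hrat : ∀ i, RatW (w i) (c i))
    (hc : ∀ j, ∑ i, c i j ≤ 1) : ∃ C : ℕ, ∀ M N : ℕ, 1 ≤ M → N = 2 * M →
    (N.factorial : ℝ) ^ Fintype.card (R × J) ≤ (3 * ((N : ℝ) + 1)) ^ C *
      ((univ.filter fun π : R × J → Equiv.Perm (Fin N) => ∃ x : J → Fin N → Bool,
        ∀ i a, w i (fun j => x j (π (i, j) a)) ≠ 0).card : ℝ) := by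
  refine ⟨3 * Fintype.card J + 6 * (Fintype.card R * Fintype.card J), fun M N hM hN => ?_⟩
  have hN1 : 1 ≤ N := by omega
  set G := univ.filter fun π : R × J → Equiv.Perm (Fin N) => ∃ x : J → Fin N → Bool,
        ∀ i a, w i (fun j => x j (π (i, j) a)) ≠ 0 with hG
  set S1 := ∑ π, ZG w N M π with hS1
  set S2 := ∑ π, ZG w N M π ^ 2 with hS2
  set F : ℝ := (N.factorial : ℝ) ^ Fintype.card (R × J) with hF
  set p : ℝ := ∏ i, (∑ e, w i e) ^ N with hp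
  set T : ℝ := 3 * ((N : ℝ) + 1) with hT
  have hN0 : (0 : ℝ) ≤ N := Nat.cast_nonneg _
  have hT1 : 1 ≤ T := by rw [hT]; linarith
  have hppos : 0 < p := Finset.prod_pos fun i _ => pow_pos (hwpos i) _
  have hF0 : 0 < F := by positivity
  -- Z positive implies a good signing
  have hpos : ∀ π, ZG w N M π ≠ 0 → π ∈ G := by
    intro π hπ
    rw [hG, mem_filter]
    refine ⟨mem_univ _, ?_⟩
    obtain ⟨x, -, hx⟩ := Finset.exists_ne_zero_of_sum_ne_zero hπ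
    refine ⟨x, fun i a => ?_⟩
    rw [Finset.prod_ne_zero_iff] at hx
    have h1 := hx i (mem_univ _)
    rw [Finset.prod_ne_zero_iff] at h1
    exact h1 a (mem_univ _)
  -- Cauchy-Schwarz
  have hCS : S1 ^ 2 ≤ G.card * S2 := by
    have h1 : S1 = ∑ π ∈ G, ZG w N M π := by
      rw [hS1]
      refine (Finset.sum_subset (subset_univ _) ?_).symm
      intro π _ hπ
      by_contra hne
      exact hπ (hpos π hne)
    rw [h1]
    refine (sq_sum_le_card_mul_sum_sq).trans ?_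
    refine mul_le_mul_of_nonneg_left ?_ (Nat.cast_nonneg _)
    exact Finset.sum_le_sum_of_subset_of_nonneg (subset_univ _) fun _ _ _ => sq_nonneg _
  have hL := sum_ZG_ge hLOWB w hw heven M
  rw [← hN] at hL
  have h2M : 2 * (M : ℝ) = N := by rw [hN]; push_cast; ring
  rw [h2M] at hL
  have hU := sum_ZGsq_le hUPG hHOEF w hw c hrat hc hN hN1
  have hB := Bal_card (J := J) N M hN
  set nJ := Fintype.card J with hnJ
  set nR := Fintype.card R with hnR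
  set b : ℝ := ((Balf J N M).card : ℝ) with hb
  have hFe : ((N.factorial : ℝ) ^ nJ) ^ nR = F := by
    rw [hF, Fintype.card_prod, ← pow_mul, mul_comm]
  rw [hFe] at hL
  have hL' : b * F * p ≤ (((2 : ℝ) ^ N * ((N : ℝ) + 1)) ^ nJ) ^ nR * S1 := hL
  have hU' : S2 ≤ (((N.factorial : ℝ) * T ^ 4) ^ nJ) ^ nR * (((1 / 4 : ℝ) ^ nJ) ^ N) ^ nR * p ^ 2 *
      (2 ^ N * (((N : ℝ) + 1) * 2 ^ N)) ^ nJ := hU
  have e1 : (((N.factorial : ℝ) * T ^ 4) ^ nJ) ^ nR = F * T ^ (4 * nR * nJ) := by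
    rw [mul_pow, mul_pow, hFe, ← pow_mul, ← pow_mul]
    congr 2; ring
  rw [e1] at hU'
  have hNT : (N : ℝ) + 1 ≤ T := by rw [hT]; linarith
  -- combine
  have s1 : (2 : ℝ) ^ (N * nJ) * (F * p) ≤ T ^ nJ * (((2 : ℝ) ^ N * T) ^ nJ) ^ nR * S1 := by
    have hS10 : 0 ≤ S1 := Finset.sum_nonneg fun π _ => ZG_nonneg _ hw _ _ _
    calc (2 : ℝ) ^ (N * nJ) * (F * p) ≤ (((N : ℝ) + 1) ^ nJ * b) * (F * p) :=
          mul_le_mul_of_nonneg_right hB (by positivity)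
      _ = ((N : ℝ) + 1) ^ nJ * (b * F * p) := by ring
      _ ≤ ((N : ℝ) + 1) ^ nJ * ((((2 : ℝ) ^ N * ((N : ℝ) + 1)) ^ nJ) ^ nR * S1) :=
          mul_le_mul_of_nonneg_left hL' (by positivity)
      _ ≤ T ^ nJ * ((((2 : ℝ) ^ N * T) ^ nJ) ^ nR * S1) := by gcongr
      _ = _ := by ring
  have s2 : S2 ≤ F * T ^ (4 * nR * nJ) * (((1 / 4 : ℝ) ^ nJ) ^ N) ^ nR * p ^ 2 *
      (2 ^ N * (T * 2 ^ N)) ^ nJ := by
    refine hU'.trans ?_
    gcongr
  have s3 : ((2 : ℝ) ^ (N * nJ) * (F * p)) ^ 2 ≤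
      (T ^ nJ * (((2 : ℝ) ^ N * T) ^ nJ) ^ nR) ^ 2 * (G.card * (F * T ^ (4 * nR * nJ) *
        (((1 / 4 : ℝ) ^ nJ) ^ N) ^ nR * p ^ 2 * (2 ^ N * (T * 2 ^ N)) ^ nJ)) := by
    calc ((2 : ℝ) ^ (N * nJ) * (F * p)) ^ 2 ≤
        (T ^ nJ * (((2 : ℝ) ^ N * T) ^ nJ) ^ nR * S1) ^ 2 :=
          pow_le_pow_left₀ (by positivity) s1 2
      _ = (T ^ nJ * (((2 : ℝ) ^ N * T) ^ nJ) ^ nR) ^ 2 * S1 ^ 2 := by ring
      _ ≤ (T ^ nJ * (((2 : ℝ) ^ N * T) ^ nJ) ^ nR) ^ 2 * (G.card * S2) :=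
          mul_le_mul_of_nonneg_left hCS (sq_nonneg _)
      _ ≤ _ := by gcongr
  have e4 : (((2 : ℝ) ^ N * T) ^ nJ) ^ nR = 2 ^ (N * nJ * nR) * T ^ (nJ * nR) := by
    rw [mul_pow, mul_pow, ← pow_mul, ← pow_mul, ← pow_mul, mul_assoc N nJ nR]
  have e5 : (((1 / 4 : ℝ) ^ nJ) ^ N) ^ nR * (2 ^ (N * nJ * nR)) ^ 2 = 1 := by
    rw [← pow_mul, ← pow_mul, ← pow_mul, show nJ * (N * nR) = N * nJ * nR by ring,
      mul_comm (N * nJ * nR) 2, pow_mul 2 2, ← mul_pow]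
    norm_num
  have e6 : (2 ^ N * (T * 2 ^ N)) ^ nJ = T ^ nJ * (2 ^ (N * nJ)) ^ 2 := by
    rw [show (2 : ℝ) ^ N * (T * 2 ^ N) = T * (2 ^ N) ^ 2 by ring, mul_pow, ← pow_mul, ← pow_mul,
      ← pow_mul]
    congr 2; ring
  have s4 : ((2 : ℝ) ^ (N * nJ)) ^ 2 * F * p ^ 2 * F ≤ ((2 : ℝ) ^ (N * nJ)) ^ 2 * F * p ^ 2 *
      (T ^ (3 * nJ + 6 * (nR * nJ)) * G.card) := by
    have l1 : ((2 : ℝ) ^ (N * nJ)) ^ 2 * F * p ^ 2 * F = ((2 : ℝ) ^ (N * nJ) * (F * p)) ^ 2 := by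
      ring
    have l2 : (T ^ nJ * (((2 : ℝ) ^ N * T) ^ nJ) ^ nR) ^ 2 * (G.card * (F * T ^ (4 * nR * nJ) *
        (((1 / 4 : ℝ) ^ nJ) ^ N) ^ nR * p ^ 2 * (2 ^ N * (T * 2 ^ N)) ^ nJ)) =
        ((((1 / 4 : ℝ) ^ nJ) ^ N) ^ nR * (2 ^ (N * nJ * nR)) ^ 2) *
        (((2 : ℝ) ^ (N * nJ)) ^ 2 * F * p ^ 2 * (T ^ (3 * nJ + 6 * (nR * nJ)) * G.card)) := by
      rw [e4, e6]
      have l3 : T ^ (3 * nJ + 6 * (nR * nJ)) = T ^ nJ * T ^ nJ * T ^ nJ * T ^ (nJ * nR) *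
          T ^ (nJ * nR) * T ^ (4 * nR * nJ) := by
        rw [← pow_add, ← pow_add, ← pow_add, ← pow_add, ← pow_add]
        congr 1; ring
      rw [l3]; ring
    rw [l1]
    refine s3.trans (le_of_eq ?_)
    rw [l2, e5, one_mul]
  have hcc : 0 < ((2 : ℝ) ^ (N * nJ)) ^ 2 * F * p ^ 2 := by positivity
  exact le_of_mul_le_mul_left s4 hcc

end

end Pool.Agent.N404.KL
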