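import Pool.Agent.N404.KL.Main
import Pool.Agent.N404.KL.GMom

set_option autoImplicit false

/-! Almost all lifts have a good signing; general constant. -/

namespace Pool.Agent.N404.KL

open Finset Classical Pool.Agent.N404.LF

section
variable {R J : Type} [Fintype R] [DecidableEq R] [Fintype J] [DecidableEq J]

theorem row_goodG {N' N : ℕ} (h : N' ≤ N) (A : R → J → ℝ) (K₀ : ℝ) (π : R × J → Equiv.Perm (Fin N))
    (π₀ : R × J → Equiv.Perm (Fin N')) (x : J → Fin N' → Bool)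
    (hx : ∀ i a, |∑ j, A i j * sg (x j (π₀ (i, j) a))| ≤ K₀) (r : R × Fin N)
    (hr : r ∉ Bad h π π₀) : |∑ j, A r.1 j * exx h x (j, π (r.1, j) r.2)| ≤ K₀ := by
  obtain ⟨i, a⟩ := r
  unfold Bad at hr
  rw [mem_union, not_or] at hr
  obtain ⟨h1, h2⟩ := hr
  have ha : a.val < N' := by
    by_contra hcon
    exact h2 (mem_filter.2 ⟨mem_univ _, not_lt.1 hcon⟩)
  have hπ : ∀ j, π (i, j) a = ext h (π₀ (i, j)) a := by
    intro j
    by_contra hcon
    apply h1
    rw [mem_image]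
    exact ⟨((i, j), a), mem_filter.2 ⟨mem_univ _, hcon⟩, rfl⟩
  have e1 : a = Fin.castLE h ⟨a.val, ha⟩ := rfl
  have e2 : ∀ j, π (i, j) a = Fin.castLE h (π₀ (i, j) ⟨a.val, ha⟩) := by
    intro j
    rw [hπ j]
    conv_lhs => rw [e1]
    exact ext_apply h (π₀ (i, j)) ⟨a.val, ha⟩
  have e3 : ∑ j, A i j * exx h x (j, π (i, j) a) =
      ∑ j, A i j * sg (x j (π₀ (i, j) ⟨a.val, ha⟩)) := by
    refine Finset.sum_congr rfl fun j _ => ?_
    rw [e2 j, exx_cast]
  show |∑ j, A i j * exx h x (j, π (i, j) a)| ≤ K₀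
  rw [e3]
  exact hx i _

theorem good_ofG (hREP : S_REP) (A : R → J → ℝ) (K₀ : ℝ) (hK₀ : 0 ≤ K₀) (hA : ∀ i j, |A i j| ≤ 1) {N' N : ℕ} (h : N' ≤ N)
    (π : R × J → Equiv.Perm (Fin N)) (π₀ : R × J → Equiv.Perm (Fin N')) (x : J → Fin N' → Bool)
    (hx : ∀ i a, |∑ j, A i j * sg (x j (π₀ (i, j) a))| ≤ K₀) (t m : ℕ)
    (hB : (Bad h π π₀).card ≤ t) (hm : 2 * t * (1 + Fintype.card J) ≤ m)
    (hsp : ∀ U : Finset ((R ⊕ J) × Fin N), U.Nonempty → U.card ≤ m →
      5 * eU (fun p : R × J => (Sum.inl p.1 : R ⊕ J)) (fun p => Sum.inr p.2) π U < 6 * U.card) :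
    Good A (K₀ + 4) π := by
  have h1 := hREP (R × Fin N) (J × Fin N) J (fun r j => (j, π (r.1, j) r.2))
    (fun r j => A r.1 j) (exx h x) K₀ m t (Bad h π π₀) (by
      intro r j j' hjj
      exact (Prod.mk.inj hjj).1) (fun r j => hA _ _) (exx_sign h x) hK₀ hB hm (by
      intro S T hS hST
      set f : R × Fin N → (R ⊕ J) × Fin N := fun p => (Sum.inl p.1, p.2) with hf
      set g : J × Fin N → (R ⊕ J) × Fin N := fun p => (Sum.inr p.1, p.2) with hg
      have hfi : Function.Injective f := by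
        rintro ⟨a, b⟩ ⟨a', b'⟩ hab
        simp only [hf, Prod.mk.injEq, Sum.inl.injEq] at hab
        exact Prod.ext hab.1 hab.2
      have hgi : Function.Injective g := by
        rintro ⟨a, b⟩ ⟨a', b'⟩ hab
        simp only [hg, Prod.mk.injEq, Sum.inr.injEq] at hab
        exact Prod.ext hab.1 hab.2
      set U := S.image f ∪ T.image g with hU
      have hdisj : Disjoint (S.image f) (T.image g) := by
        rw [Finset.disjoint_left]
        rintro z hz1 hz2
        obtain ⟨p, _, rfl⟩ := mem_image.1 hz1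
        obtain ⟨q, _, hq⟩ := mem_image.1 hz2
        simp [hf, hg] at hq
      have hUc : U.card = S.card + T.card := by
        rw [hU, card_union_of_disjoint hdisj, card_image_of_injective _ hfi,
          card_image_of_injective _ hgi]
      have hmf : ∀ i a, (Sum.inl i, a) ∈ U ↔ (i, a) ∈ S := by
        intro i a
        rw [hU, mem_union]
        constructor
        · rintro (hz | hz)
          · obtain ⟨p, hp, hpe⟩ := mem_image.1 hz
            have : p = (i, a) := hfi hpe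
            rwa [← this]
          · obtain ⟨p, hp, hpe⟩ := mem_image.1 hz
            simp [hg] at hpe
        · intro hz
          exact Or.inl (mem_image.2 ⟨(i, a), hz, rfl⟩)
      have hmg : ∀ i a, (Sum.inr i, a) ∈ U ↔ (i, a) ∈ T := by
        intro i a
        rw [hU, mem_union]
        constructor
        · rintro (hz | hz)
          · obtain ⟨p, hp, hpe⟩ := mem_image.1 hz
            simp [hf] at hpe
          · obtain ⟨p, hp, hpe⟩ := mem_image.1 hz
            have : p = (i, a) := hgi hpe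
            rwa [← this]
        · intro hz
          exact Or.inr (mem_image.2 ⟨(i, a), hz, rfl⟩)
      have hUne : U.Nonempty := by
        obtain ⟨p, hp⟩ := hS
        exact ⟨f p, mem_union_left _ (mem_image.2 ⟨p, hp, rfl⟩)⟩
      have h2 := hsp U hUne (by rw [hUc]; exact hST)
      rw [hUc] at h2
      have h3 : (univ.filter fun p : (R × Fin N) × J => p.1 ∈ S ∧
          (p.2, π (p.1.1, p.2) p.1.2) ∈ T).card =
          eU (fun p : R × J => (Sum.inl p.1 : R ⊕ J)) (fun p => Sum.inr p.2) π U := by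
        rw [eU_card, ← card_filter_eq]
        refine Nat.card_congr (Equiv.subtypeEquiv reord ?_)
        rintro ⟨⟨i, a⟩, j⟩
        exact and_congr (hmf _ _).symm (hmg _ _).symm
      rw [← h3] at h2
      convert h2) (fun r hr => row_goodG h A K₀ π π₀ x hx r hr)
  obtain ⟨y, hy1, hy2⟩ := h1
  refine ⟨y, hy1, fun i a => ?_⟩
  exact hy2 (i, a)

end

theorem proof_MAING (hISO : S_ISO) (hSPA : S_SPA2) (hREP : S_REP) (hEV : S_EV)
    (R J : Type) [Fintype R] [DecidableEq R] [Fintype J] [DecidableEq J] (A : R → J → ℝ)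
    (K₀ : ℝ) (hK₀ : 0 ≤ K₀) (hA : ∀ i j, |A i j| ≤ 1)
    (hMOM : ∃ C : ℕ, ∀ M N : ℕ, 1 ≤ M → N = 2 * M →
      (N.factorial : ℝ) ^ Fintype.card (R × J) ≤ (3 * ((N : ℝ) + 1)) ^ C *
        ((univ.filter fun π : R × J → Equiv.Perm (Fin N) => ∃ x : J → Fin N → Bool,
          ∀ i a, |∑ j, A i j * sg (x j (π (i, j) a))| ≤ K₀).card : ℝ)) : ∃ N₀ : ℕ, ∀ N : ℕ, N₀ ≤ N →
      (N : ℝ) ^ (1 / 3 : ℝ) * ((univ.filter fun π : R × J → Equiv.Perm (Fin N) =>
        ¬ Good A (K₀ + 4) π).card : ℝ) ≤ (N.factorial : ℝ) ^ Fintype.card (R × J) := by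
  obtain ⟨C, hC⟩ := hMOM
  obtain ⟨C₁', hC₁⟩ := hSPA (R ⊕ J) (R × J) (fun p => Sum.inl p.1) (fun p => Sum.inr p.2)
  set nI := Fintype.card (R × J) with hnI
  set c₀ := Fintype.card R with hc₀
  set K := C + 2 * nI with hK
  set C₁ := C₁' * (2 * (1 + Fintype.card J)) with hC₁'
  set c : ℝ := 1 / (18 * ((nI : ℝ) + 1)) with hc
  have hc0 : 0 < c := by positivity
  obtain ⟨N₀, hN₀⟩ := hEV 2 C K c₀ C₁ 0 c (1 / 2) le_rfl hc0 (by norm_num) (by norm_num)
  refine ⟨max N₀ 2, fun N hN => ?_⟩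
  have hNN₀ : N₀ ≤ N := (le_max_left _ _).trans hN
  have hNL : 2 ≤ N := (le_max_right _ _).trans hN
  have hN1 : 1 ≤ N := by omega
  obtain ⟨ev1, ev2, ev3, -, -⟩ := hN₀ N hNN₀
  set M := N / 2 with hM
  have hM1 : 1 ≤ M := by omega
  set N' := 2 * M with hN'
  have hle : N' ≤ N := by omega
  have hsub : N - N' ≤ 1 := by omega
  have hsub2 : N - N' ≤ 2 := by omega
  set A₀ := univ.filter fun π : R × J → Equiv.Perm (Fin N') => ∃ x : J → Fin N' → Bool,
        ∀ i a, |∑ j, A i j * sg (x j (π (i, j) a))| ≤ K₀ with hA₀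
  have hA1 := hC M N' hM1 rfl
  rw [← hA₀] at hA1
  set T : ℝ := 3 * ((N : ℝ) + 1) with hT
  have hN0' : (0 : ℝ) ≤ N := Nat.cast_nonneg _
  have hNpos : (0 : ℝ) < N := by exact_mod_cast hN1
  have hT1 : 1 ≤ T := by rw [hT]; linarith
  have hNT : (N : ℝ) ≤ T := by rw [hT]; linarith
  have hT' : 3 * ((N' : ℝ) + 1) ≤ T := by
    have : (N' : ℝ) ≤ N := by exact_mod_cast hle
    rw [hT]; linarith
  have hTpow : (3 * ((N' : ℝ) + 1)) ^ C ≤ T ^ C := pow_le_pow_left₀ (by positivity) hT' C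
  set A' : Finset (R × J → Equiv.Perm (Fin N)) := A₀.image (fun π i => ext hle (π i)) with hA'
  have hA'c : A'.card = A₀.card := by
    refine Finset.card_image_of_injective _ ?_
    intro π π' hp
    funext i
    exact ext_inj hle (congrFun hp i)
  set F : ℝ := (N.factorial : ℝ) ^ nI with hF
  have hF0 : 0 < F := by positivity
  have hFA : F ≤ T ^ K * A'.card := by
    have h1 : (N.factorial : ℝ) ≤ (N'.factorial : ℝ) * (N : ℝ) ^ 2 := by
      exact_mod_cast fact_ratio hle hsub2 hN1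
    have h2 : F ≤ (N'.factorial : ℝ) ^ nI * ((N : ℝ) ^ 2) ^ nI := by
      rw [← mul_pow]; exact pow_le_pow_left₀ (by positivity) h1 _
    calc F ≤ (N'.factorial : ℝ) ^ nI * ((N : ℝ) ^ 2) ^ nI := h2
      _ ≤ ((3 * ((N' : ℝ) + 1)) ^ C * A₀.card) * ((N : ℝ) ^ 2) ^ nI :=
          mul_le_mul_of_nonneg_right hA1 (by positivity)
      _ ≤ (T ^ C * A₀.card) * (T ^ 2) ^ nI := by gcongr
      _ = _ := by rw [hA'c, hK, pow_add, pow_mul]; ring
  set τ : ℝ := (N : ℝ) ^ (3 / 5 : ℝ) with hτ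
  have hτ0 : 0 < τ := Real.rpow_pos_of_pos hNpos _
  set B1 := univ.filter fun π : R × J → Equiv.Perm (Fin N) => ∀ π' ∈ A', τ ≤ hd π π' with hB1
  have hB1c : (B1.card : ℝ) ≤ F * (T ^ K * Real.exp (-(c * (N : ℝ) ^ (1 / 5 : ℝ)))) := by
    rcases Nat.eq_zero_or_pos nI with h0 | hpos
    · have hI : IsEmpty (R × J) := Fintype.card_eq_zero_iff.1 h0
      have hAne : A'.Nonempty := by
        rw [← Finset.card_pos]
        by_contra hneg
        have : A'.card = 0 := by omega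
        rw [this, Nat.cast_zero, mul_zero] at hFA
        linarith
      obtain ⟨π', hπ'⟩ := hAne
      have : B1 = ∅ := by
        rw [hB1, Finset.filter_eq_empty_iff]
        intro π _ hcon
        have h1 := hcon π' hπ'
        have h2 : hd π π' = 0 := hd_empty π π'
        rw [h2, Nat.cast_zero] at h1
        linarith
      rw [this, card_empty, Nat.cast_zero]
      positivity
    · have h1 := hISO (R × J) N A' τ hτ0.le
      have h2 : Real.exp (-(τ ^ 2 / (18 * (N * (Fintype.card (R × J) : ℝ))))) ≤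
          Real.exp (-(c * (N : ℝ) ^ (1 / 5 : ℝ))) := by
        refine Real.exp_le_exp.2 (neg_le_neg ?_)
        have hnIpos : (0 : ℝ) < nI := by exact_mod_cast hpos
        have e1 : τ ^ 2 = N * (N : ℝ) ^ (1 / 5 : ℝ) := by
          rw [hτ, ← Real.rpow_natCast, ← Real.rpow_mul hN0']
          nth_rewrite 2 [← Real.rpow_one (N : ℝ)]
          rw [← Real.rpow_add hNpos]
          norm_num
        rw [e1, hc]
        have e2 : (N : ℝ) * (N : ℝ) ^ (1 / 5 : ℝ) / (18 * (N * (Fintype.card (R × J) : ℝ))) =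
            1 / (18 * (nI : ℝ)) * (N : ℝ) ^ (1 / 5 : ℝ) := by
          rw [← hnI]
          field_simp
        rw [e2]
        refine mul_le_mul_of_nonneg_right ?_ (by positivity)
        refine one_div_le_one_div_of_le (by positivity) ?_
        linarith
      have h3 : F * (B1.card : ℝ) ≤ F * (F * (T ^ K * Real.exp (-(c * (N : ℝ) ^ (1 / 5 : ℝ))))) := by
        calc F * (B1.card : ℝ) ≤ (T ^ K * A'.card) * B1.card :=
              mul_le_mul_of_nonneg_right hFA (Nat.cast_nonneg _)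
          _ = T ^ K * ((A'.card : ℝ) * B1.card) := by ring
          _ ≤ T ^ K * (F ^ 2 * Real.exp (-(τ ^ 2 / (18 * (N * (Fintype.card (R × J) : ℝ)))))) :=
              mul_le_mul_of_nonneg_left h1 (by positivity)
          _ ≤ T ^ K * (F ^ 2 * Real.exp (-(c * (N : ℝ) ^ (1 / 5 : ℝ)))) := by gcongr
          _ = _ := by ring
      exact le_of_mul_le_mul_left h3 hF0
  set t := ⌈(N : ℝ) ^ (3 / 5 : ℝ)⌉₊ + c₀ with ht
  set m := 2 * t * (1 + Fintype.card J) with hm
  set B2 := univ.filter fun π : R × J → Equiv.Perm (Fin N) => ∃ U : Finset ((R ⊕ J) × Fin N),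
      U.Nonempty ∧ U.card ≤ m ∧ 6 * U.card ≤
        5 * eU (fun p : R × J => (Sum.inl p.1 : R ⊕ J)) (fun p => Sum.inr p.2) π U with hB2
  have hCm : C₁' * m = C₁ * t := by rw [hm, hC₁']; ring
  have hB2c : (N : ℝ) * B2.card ≤ C₁ * (t : ℝ) * F := by
    have h1 := hC₁ N m (by rw [hCm]; exact ev1)
    rw [hCm] at h1
    rw [hF]
    exact_mod_cast h1
  have hsubset : (univ.filter fun π : R × J → Equiv.Perm (Fin N) => ¬ Good A (K₀ + 4) π) ⊆ B1 ∪ B2 := by
    intro π hπ
    by_contra hnot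
    rw [mem_union, not_or] at hnot
    obtain ⟨hn1, hn2⟩ := hnot
    rw [mem_filter] at hπ
    apply hπ.2
    have hex : ∃ π₀ ∈ A₀, (hd π (fun i => ext hle (π₀ i)) : ℝ) < τ := by
      by_contra hcon
      push Not at hcon
      apply hn1
      rw [hB1, mem_filter]
      refine ⟨mem_univ _, ?_⟩
      intro π' hπ'
      obtain ⟨π₀, hπ₀, rfl⟩ := mem_image.1 hπ'
      exact hcon π₀ hπ₀
    obtain ⟨π₀, hπ₀, hdist⟩ := hex
    obtain ⟨x, hx⟩ := (mem_filter.1 hπ₀).2
    refine good_ofG hREP A K₀ hK₀ hA hle π π₀ x hx t m ?_ le_rfl ?_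
    · refine (card_Bad hle π π₀).trans ?_
      rw [ht]
      refine Nat.add_le_add ?_ ?_
      · have h1 : (hd π (fun i => ext hle (π₀ i)) : ℝ) ≤ (⌈(N : ℝ) ^ (3 / 5 : ℝ)⌉₊ : ℝ) :=
          hdist.le.trans (Nat.le_ceil _)
        exact_mod_cast h1
      · calc Fintype.card R * (N - N') ≤ Fintype.card R * 1 := Nat.mul_le_mul_left _ hsub
          _ = c₀ := by rw [mul_one]
    · intro U hU hUm
      by_contra hcon
      apply hn2
      rw [hB2, mem_filter]
      exact ⟨mem_univ _, U, hU, hUm, not_lt.1 hcon⟩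
  have hcard : ((univ.filter fun π : R × J → Equiv.Perm (Fin N) => ¬ Good A (K₀ + 4) π).card : ℝ) ≤
      B1.card + B2.card := by
    have h1 := (card_le_card hsubset).trans (card_union_le _ _)
    exact_mod_cast h1
  set ν : ℝ := (N : ℝ) ^ (1 / 3 : ℝ) with hν
  have hν0 : 0 < ν := Real.rpow_pos_of_pos hNpos _
  have b1 : ν * B1.card ≤ F / 3 := by
    calc ν * B1.card ≤ ν * (F * (T ^ K * Real.exp (-(c * (N : ℝ) ^ (1 / 5 : ℝ))))) :=
          mul_le_mul_of_nonneg_left hB1c hν0.le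
      _ = F * (ν * (T ^ K * Real.exp (-(c * (N : ℝ) ^ (1 / 5 : ℝ))))) := by ring
      _ ≤ F * (1 / 3) := mul_le_mul_of_nonneg_left ev2 hF0.le
      _ = F / 3 := by ring
  have b2 : ν * B2.card ≤ F / 3 := by
    have h1 : (N : ℝ) * (ν * B2.card) ≤ N * (F / 3) := by
      calc (N : ℝ) * (ν * B2.card) = ν * (N * B2.card) := by ring
        _ ≤ ν * (C₁ * (t : ℝ) * F) := mul_le_mul_of_nonneg_left hB2c hν0.le
        _ = (ν * (C₁ * (t : ℝ))) * F := by ring
        _ ≤ (N / 3) * F := mul_le_mul_of_nonneg_right ev3 hF0.le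
        _ = _ := by ring
    exact le_of_mul_le_mul_left h1 hNpos
  calc ν * _ ≤ ν * ((B1.card : ℝ) + B2.card) := mul_le_mul_of_nonneg_left hcard hν0.le
    _ = ν * B1.card + ν * B2.card := by ring
    _ ≤ F / 3 + F / 3 := by linarith
    _ ≤ F := by linarith

end Pool.Agent.N404.KL
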