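import Pool.Agent.N404.KL.Rat2

set_option autoImplicit false

/-! The second moment. -/

namespace Pool.Agent.N404.KL

open Finset Classical Pool.Agent.N404.LF

section
variable {R J : Type} [Fintype R] [DecidableEq R] [Fintype J] [DecidableEq J]

theorem prod_split {N : ℕ} (G : R → (J → Equiv.Perm (Fin N)) → ℝ) :
    ∑ π : R × J → Equiv.Perm (Fin N), ∏ i, G i (fun j => π (i, j)) =
      ∏ i, ∑ τ : J → Equiv.Perm (Fin N), G i τ := by
  rw [Fintype.prod_sum]
  exact Equiv.sum_comp (Equiv.curry R J (Equiv.Perm (Fin N))) (fun f => ∏ i, G i (f i))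

/-- the weight of a row -/
noncomputable def Wt (α : J → ℝ) (e : J → Bool) : ℝ := tent 300 (lin α e)

theorem Wt_nonneg (α : J → ℝ) (e : J → Bool) : 0 ≤ Wt α e := tent_nonneg _ _

theorem Wt_even (α : J → ℝ) (e : J → Bool) : Wt α (fun j => !(e j)) = Wt α e := by
  unfold Wt
  have : lin α (fun j => !(e j)) = - lin α e := by
    unfold lin
    rw [← Finset.sum_neg_distrib]
    refine Finset.sum_congr rfl fun k _ => ?_
    rw [sg_not]; ring
  rw [this, tent_neg]

/-- balanced signings -/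
noncomputable def Balf (J : Type) [Fintype J] [DecidableEq J] (N M : ℕ) :
    Finset (J → Fin N → Bool) :=
  univ.filter fun x => ∀ j, cnt (x j) true = M

/-- the weighted number of the balanced signings -/
noncomputable def Z (A : R → J → ℝ) (N M : ℕ) (π : R × J → Equiv.Perm (Fin N)) : ℝ :=
  ∑ x ∈ Balf J N M, ∏ i, ∏ a, Wt (A i) (fun j => x j (π (i, j) a))

theorem Z_nonneg (A : R → J → ℝ) (N M : ℕ) (π : R × J → Equiv.Perm (Fin N)) : 0 ≤ Z A N M π :=
  Finset.sum_nonneg fun _ _ => Finset.prod_nonneg fun _ _ => Finset.prod_nonneg fun _ _ =>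
    Wt_nonneg _ _

theorem tot_eq (α : J → ℝ) : ∑ s, Wt α s = tot α := rfl

theorem sum_Z_ge (hLOWB : S_LOWB) (A : R → J → ℝ) (M : ℕ) :
    ((Balf J (2 * M) M).card : ℝ) * (((2 * M).factorial : ℝ) ^ Fintype.card J) ^ Fintype.card R *
      (∏ i, tot (A i) ^ (2 * M)) ≤
    (((2 : ℝ) ^ (2 * M) * (2 * (M : ℝ) + 1)) ^ Fintype.card J) ^ Fintype.card R *
      ∑ π, Z A (2 * M) M π := by
  unfold Z
  rw [Finset.sum_comm, Finset.mul_sum]
  have h0 : ((Balf J (2 * M) M).card : ℝ) *
      (((2 * M).factorial : ℝ) ^ Fintype.card J) ^ Fintype.card R *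
      (∏ i, tot (A i) ^ (2 * M)) = ∑ _x ∈ Balf J (2 * M) M,
      ((((2 * M).factorial : ℝ) ^ Fintype.card J) ^ Fintype.card R *
      (∏ i, tot (A i) ^ (2 * M))) := by
    rw [Finset.sum_const, nsmul_eq_mul]; ring
  rw [h0]
  refine Finset.sum_le_sum fun x hx => ?_
  have hx' := (mem_filter.1 hx).2
  rw [prod_split (fun i τ => ∏ a, Wt (A i) (fun j => x j (τ j a)))]
  have e1 : (((2 * M).factorial : ℝ) ^ Fintype.card J) ^ Fintype.card R =
      ∏ _i : R, (((2 * M).factorial : ℝ) ^ Fintype.card J) := by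
    rw [Finset.prod_const, card_univ]
  have e2 : (((2 : ℝ) ^ (2 * M) * (2 * (M : ℝ) + 1)) ^ Fintype.card J) ^ Fintype.card R =
      ∏ _i : R, (((2 : ℝ) ^ (2 * M) * (2 * (M : ℝ) + 1)) ^ Fintype.card J) := by
    rw [Finset.prod_const, card_univ]
  rw [e1, e2, ← Finset.prod_mul_distrib, ← Finset.prod_mul_distrib]
  have htot : ∀ i, 0 ≤ tot (A i) := fun i => Finset.sum_nonneg fun e _ => tent_nonneg _ _
  refine Finset.prod_le_prod (fun i _ => mul_nonneg (by positivity) (pow_nonneg (htot i) _))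
    fun i _ => ?_
  have h := hLOWB J M x (Wt (A i)) (Wt_nonneg _) (Wt_even _) hx'
  rw [tot_eq] at h
  exact h

theorem cnt_pair {N M : ℕ} (hN : N = 2 * M) (hN1 : 1 ≤ N) (x y : Fin N → Bool)
    (hx : cnt x true = M) (hy : cnt y true = M) (b b' : Bool) :
    (cnt (fun a => (x a, y a)) (b, b') : ℝ) / N =
      (1 + ((∑ a, sg (x a) * sg (y a)) / N) * sg b * sg b') / 4 := by
  have hNpos : (0 : ℝ) < N := by exact_mod_cast hN1
  have ind' : ∀ u v c c' : Bool, (if (u, v) = (c, c') then (1 : ℝ) else 0) =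
      (1 + sg c * sg u + sg c' * sg v + sg c * sg c' * (sg u * sg v)) / 4 := by
    intro u v c c'
    cases u <;> cases v <;> cases c <;> cases c' <;> norm_num [sg]
  have ind : ∀ a, (if ((fun a => (x a, y a)) a) = (b, b') then (1 : ℝ) else 0) =
      (1 + sg b * sg (x a) + sg b' * sg (y a) + sg b * sg b' * (sg (x a) * sg (y a))) / 4 := by
    intro a
    rw [← ind' (x a) (y a) b b']
  have hcnt : (cnt (fun a => (x a, y a)) (b, b') : ℝ) =
      ∑ a, (1 + sg b * sg (x a) + sg b' * sg (y a) + sg b * sg b' * (sg (x a) * sg (y a))) / 4 := by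
    unfold cnt
    rw [Finset.card_filter]
    push_cast
    exact Finset.sum_congr rfl fun a _ => ind a
  have hbal : ∀ z : Fin N → Bool, cnt z true = M → ∑ a, sg (z a) = 0 := by
    intro z hz
    have h1 : ∀ a, sg (z a) = 2 * (if z a = true then (1 : ℝ) else 0) - 1 := by
      intro a; cases z a <;> simp [sg] ; norm_num
    rw [Finset.sum_congr rfl (fun a _ => h1 a), Finset.sum_sub_distrib, ← Finset.mul_sum]
    have h2 : ∑ a, (if z a = true then (1 : ℝ) else 0) = M := by
      rw [← hz]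
      unfold cnt
      rw [Finset.card_filter]
      push_cast
      rfl
    rw [h2]
    simp only [Finset.sum_const, card_univ, Fintype.card_fin, nsmul_eq_mul, mul_one]
    rw [hN]; push_cast; ring
  rw [hcnt, ← Finset.sum_div, Finset.sum_add_distrib, Finset.sum_add_distrib,
    Finset.sum_add_distrib, ← Finset.mul_sum, ← Finset.mul_sum, ← Finset.mul_sum, hbal x hx,
    hbal y hy]
  simp only [Finset.sum_const, card_univ, Fintype.card_fin, nsmul_eq_mul, mul_one, mul_zero,
    add_zero]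
  field_simp

/-- the overlaps -/
noncomputable def ovl {N : ℕ} (x y : Fin N → Bool) : ℝ := (∑ a, sg (x a) * sg (y a)) / N

theorem abs_ovl {N : ℕ} (x y : Fin N → Bool) : |ovl x y| ≤ 1 := by
  unfold ovl
  have hNN : |(N : ℝ)| = N := abs_of_nonneg (Nat.cast_nonneg N)
  rw [abs_div, hNN]
  rcases Nat.eq_zero_or_pos N with h | h
  · subst h; simp
  rw [div_le_one (by exact_mod_cast h)]
  calc |∑ a, sg (x a) * sg (y a)| ≤ ∑ a, |sg (x a) * sg (y a)| := Finset.abs_sum_le_sum_abs _ _
    _ = ∑ _a : Fin N, (1 : ℝ) := Finset.sum_congr rfl fun a _ => by rw [abs_mul, abs_sg, abs_sg, one_mul]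
    _ = N := by simp

theorem row_up (hUPG : S_UPG) (hRAT : S_RAT) (α : J → ℝ) (hα : ∀ j, |α j| ≤ 1) {N M : ℕ}
    (hN : N = 2 * M) (hN1 : 1 ≤ N) (x y : J → Fin N → Bool) (hx : ∀ j, cnt (x j) true = M)
    (hy : ∀ j, cnt (y j) true = M) :
    ∑ τ : J → Equiv.Perm (Fin N), ∏ a, (Wt α (fun j => x j (τ j a)) * Wt α (fun j => y j (τ j a))) ≤
      ((N.factorial : ℝ) * (3 * ((N : ℝ) + 1)) ^ 4) ^ Fintype.card J *
        ((1 / 4) ^ Fintype.card J * (tot α ^ 2 *
          Real.exp (1 / 2 * ∑ j, α j ^ 2 * ovl (x j) (y j) ^ 2))) ^ N := by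
  have h1 := hUPG J (Bool × Bool) N (fun j a => (x j a, y j a))
    (fun s => Wt α (fun j => (s j).1) * Wt α (fun j => (s j).2)) hN1
    (fun s => mul_nonneg (Wt_nonneg _ _) (Wt_nonneg _ _))
  have hcard : Fintype.card (Bool × Bool) = 4 := rfl
  rw [hcard] at h1
  refine h1.trans ?_
  refine mul_le_mul_of_nonneg_left ?_ (by positivity)
  refine pow_le_pow_left₀ ?_ ?_ N
  · refine Finset.sum_nonneg fun s _ => mul_nonneg (Finset.prod_nonneg fun j _ => by positivity)
      (mul_nonneg (Wt_nonneg _ _) (Wt_nonneg _ _))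
  have h2 : ∑ s : J → Bool × Bool, (∏ j, (cnt ((fun j a => (x j a, y j a)) j) (s j) : ℝ) / N) *
      (Wt α (fun j => (s j).1) * Wt α (fun j => (s j).2)) =
      (1 / 4) ^ Fintype.card J * ∑ e : J → Bool, ∑ e' : J → Bool, Wt α e * Wt α e' *
        ∏ j, (1 + ovl (x j) (y j) * sg (e j) * sg (e' j)) := by
    rw [Finset.mul_sum, ← Equiv.sum_comp (Equiv.arrowProdEquivProdArrow J (fun _ => Bool)
      (fun _ => Bool)).symm, Fintype.sum_prod_type]
    refine Finset.sum_congr rfl fun e _ => ?_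
    rw [Finset.mul_sum]
    refine Finset.sum_congr rfl fun e' _ => ?_
    have e3 : ∀ j, (cnt ((fun j a => (x j a, y j a)) j)
        (((Equiv.arrowProdEquivProdArrow J (fun _ => Bool) (fun _ => Bool)).symm (e, e')) j) : ℝ) / N
        = (1 / 4) * (1 + ovl (x j) (y j) * sg (e j) * sg (e' j)) := by
      intro j
      have := cnt_pair hN hN1 (x j) (y j) (hx j) (hy j) (e j) (e' j)
      unfold ovl
      rw [show ((Equiv.arrowProdEquivProdArrow J (fun _ => Bool) (fun _ => Bool)).symm (e, e')) j =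
        (e j, e' j) from rfl]
      rw [this]; ring
    rw [Finset.prod_congr rfl (fun j _ => e3 j), Finset.prod_mul_distrib, Finset.prod_const,
      card_univ]
    show _ * (Wt α e * Wt α e') = _
    ring
  rw [h2]
  refine mul_le_mul_of_nonneg_left ?_ (by positivity)
  exact (hRAT J α (fun j => ovl (x j) (y j)) hα (fun j => abs_ovl _ _)).2

end

end Pool.Agent.N404.KL
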