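import Pool.Agent.N404.KL.Mom

set_option autoImplicit false

/-! The second moment. -/

namespace Pool.Agent.N404.KL

open Finset Classical Pool.Agent.N404.LF

section
variable {R J : Type} [Fintype R] [DecidableEq R] [Fintype J] [DecidableEq J]

theorem Z_sq (A : R → J → ℝ) (N M : ℕ) (π : R × J → Equiv.Perm (Fin N)) :
    Z A N M π ^ 2 = ∑ x ∈ Balf J N M, ∑ y ∈ Balf J N M, ∏ i, ∏ a,
      (Wt (A i) (fun j => x j (π (i, j) a)) * Wt (A i) (fun j => y j (π (i, j) a))) := by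
  unfold Z
  rw [sq, Finset.sum_mul_sum]
  refine Finset.sum_congr rfl fun x _ => Finset.sum_congr rfl fun y _ => ?_
  rw [← Finset.prod_mul_distrib]
  exact Finset.prod_congr rfl fun i _ => (Finset.prod_mul_distrib).symm

theorem col_le (A : R → J → ℝ) (hA : ∀ j, ∑ i, A i j ^ 2 ≤ 1) (i : R) (j : J) : |A i j| ≤ 1 := by
  have h1 : A i j ^ 2 ≤ 1 :=
    (Finset.single_le_sum (f := fun i => A i j ^ 2) (fun i _ => sq_nonneg _) (mem_univ i)).trans
      (hA j)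
  rw [← sq_abs] at h1
  nlinarith [abs_nonneg (A i j)]

theorem sum_Zsq_le (hUPG : S_UPG) (hRAT : S_RAT) (hHOEF : S_HOEF) (A : R → J → ℝ)
    (hA : ∀ j, ∑ i, A i j ^ 2 ≤ 1) {N M : ℕ} (hN : N = 2 * M) (hN1 : 1 ≤ N) :
    ∑ π, Z A N M π ^ 2 ≤
      (((N.factorial : ℝ) * (3 * ((N : ℝ) + 1)) ^ 4) ^ Fintype.card J) ^ Fintype.card R *
      (((1 / 4 : ℝ) ^ Fintype.card J) ^ N) ^ Fintype.card R * (∏ i, tot (A i) ^ N) ^ 2 *
      (2 ^ N * (((N : ℝ) + 1) * 2 ^ N)) ^ Fintype.card J := by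
  have hNpos : (0 : ℝ) < N := by exact_mod_cast hN1
  set K1 : ℝ := (((N.factorial : ℝ) * (3 * ((N : ℝ) + 1)) ^ 4) ^ Fintype.card J) ^ Fintype.card R
    with hK1
  set K2 : ℝ := (((1 / 4 : ℝ) ^ Fintype.card J) ^ N) ^ Fintype.card R with hK2
  set p : ℝ := ∏ i, tot (A i) ^ N with hp
  have hK10 : 0 ≤ K1 := by positivity
  have hK20 : 0 ≤ K2 := by positivity
  have hpair : ∀ x ∈ Balf J N M, ∀ y ∈ Balf J N M,
      ∑ π : R × J → Equiv.Perm (Fin N), ∏ i, ∏ a,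
      (Wt (A i) (fun j => x j (π (i, j) a)) * Wt (A i) (fun j => y j (π (i, j) a))) ≤
      K1 * K2 * p ^ 2 * ∏ j, Real.exp ((∑ a, sg (x j a) * sg (y j a)) ^ 2 / (2 * N)) := by
    intro x hx y hy
    have hx' := (mem_filter.1 hx).2
    have hy' := (mem_filter.1 hy).2
    rw [prod_split (fun i τ => ∏ a,
      (Wt (A i) (fun j => x j (τ j a)) * Wt (A i) (fun j => y j (τ j a))))]
    refine (Finset.prod_le_prod (fun i _ => Finset.sum_nonneg fun τ _ =>
      Finset.prod_nonneg fun a _ => mul_nonneg (Wt_nonneg _ _) (Wt_nonneg _ _))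
      (fun i _ => row_up hUPG hRAT (A i) (col_le A hA i) hN hN1 x y hx' hy')).trans ?_
    have e1 : ∀ i, ((N.factorial : ℝ) * (3 * ((N : ℝ) + 1)) ^ 4) ^ Fintype.card J *
        ((1 / 4) ^ Fintype.card J * (tot (A i) ^ 2 *
          Real.exp (1 / 2 * ∑ j, A i j ^ 2 * ovl (x j) (y j) ^ 2))) ^ N =
        (((N.factorial : ℝ) * (3 * ((N : ℝ) + 1)) ^ 4) ^ Fintype.card J *
        ((1 / 4) ^ Fintype.card J) ^ N) * ((tot (A i) ^ N) ^ 2 *
          Real.exp (N * (1 / 2 * ∑ j, A i j ^ 2 * ovl (x j) (y j) ^ 2))) := by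
      intro i
      have gen : ∀ a b t u : ℝ, a * (b * (t ^ 2 * Real.exp u)) ^ N =
          (a * b ^ N) * ((t ^ N) ^ 2 * Real.exp (N * u)) := by
        intro a b t u
        rw [mul_pow, mul_pow, ← Real.exp_nat_mul, ← pow_mul t, ← pow_mul t, mul_comm 2 N]
        ring
      exact gen _ _ _ _
    rw [Finset.prod_congr rfl (fun i _ => e1 i), Finset.prod_mul_distrib, Finset.prod_const,
      card_univ, mul_pow, Finset.prod_mul_distrib, Finset.prod_pow, ← Real.exp_sum,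
      ← Real.exp_sum, mul_assoc (K1 * K2)]
    refine mul_le_mul_of_nonneg_left ?_ (mul_nonneg hK10 hK20)
    refine mul_le_mul_of_nonneg_left (Real.exp_le_exp.2 ?_) (sq_nonneg _)
    calc ∑ i, (N : ℝ) * (1 / 2 * ∑ j, A i j ^ 2 * ovl (x j) (y j) ^ 2)
        = ∑ j, (∑ i, A i j ^ 2) * ((∑ a, sg (x j a) * sg (y j a)) ^ 2 / (2 * N)) := by
          rw [← Finset.mul_sum, ← Finset.mul_sum, Finset.sum_comm, Finset.mul_sum, Finset.mul_sum]
          refine Finset.sum_congr rfl fun j _ => ?_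
          rw [← Finset.sum_mul]
          unfold ovl
          field_simp
      _ ≤ ∑ j, 1 * ((∑ a, sg (x j a) * sg (y j a)) ^ 2 / (2 * N)) :=
          Finset.sum_le_sum fun j _ => mul_le_mul_of_nonneg_right (hA j) (by positivity)
      _ = _ := by simp
  have h1 : ∑ π, Z A N M π ^ 2 ≤ ∑ x ∈ Balf J N M, ∑ y ∈ Balf J N M,
      (K1 * K2 * p ^ 2 * ∏ j, Real.exp ((∑ a, sg (x j a) * sg (y j a)) ^ 2 / (2 * N))) := by
    rw [Finset.sum_congr rfl (fun π _ => Z_sq A N M π), Finset.sum_comm]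
    refine Finset.sum_le_sum fun x hx => ?_
    rw [Finset.sum_comm]
    exact Finset.sum_le_sum fun y hy => hpair x hx y hy
  refine h1.trans ?_
  have h2 : ∑ x ∈ Balf J N M, ∑ y ∈ Balf J N M,
      (K1 * K2 * p ^ 2 * ∏ j, Real.exp ((∑ a, sg (x j a) * sg (y j a)) ^ 2 / (2 * N))) ≤
      ∑ x : J → Fin N → Bool, ∑ y : J → Fin N → Bool,
      (K1 * K2 * p ^ 2 * ∏ j, Real.exp ((∑ a, sg (x j a) * sg (y j a)) ^ 2 / (2 * N))) := by
    have hterm : ∀ x y : J → Fin N → Bool, 0 ≤ K1 * K2 * p ^ 2 *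
        ∏ j, Real.exp ((∑ a, sg (x j a) * sg (y j a)) ^ 2 / (2 * N)) := fun x y =>
      mul_nonneg (mul_nonneg (mul_nonneg hK10 hK20) (sq_nonneg _))
        (Finset.prod_nonneg fun j _ => (Real.exp_pos _).le)
    refine (Finset.sum_le_sum fun x _ => Finset.sum_le_sum_of_subset_of_nonneg (subset_univ _)
      fun y _ _ => hterm x y).trans ?_
    exact Finset.sum_le_sum_of_subset_of_nonneg (subset_univ _) fun x _ _ =>
      Finset.sum_nonneg fun y _ => hterm x y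
  refine h2.trans ?_
  simp only [← Finset.mul_sum]
  refine mul_le_mul_of_nonneg_left ?_ (mul_nonneg (mul_nonneg hK10 hK20) (sq_nonneg _))
  have h3 : ∀ x : J → Fin N → Bool, ∑ y : J → Fin N → Bool,
      ∏ j, Real.exp ((∑ a, sg (x j a) * sg (y j a)) ^ 2 / (2 * N)) ≤
      (((N : ℝ) + 1) * 2 ^ N) ^ Fintype.card J := by
    intro x
    rw [← Fintype.prod_sum (fun (j : J) (z : Fin N → Bool) =>
      Real.exp ((∑ a, sg (x j a) * sg (z a)) ^ 2 / (2 * N)))]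
    refine (Finset.prod_le_prod (fun j _ => Finset.sum_nonneg fun z _ => (Real.exp_pos _).le)
      (fun j _ => hHOEF N (x j))).trans (le_of_eq ?_)
    rw [Finset.prod_const, card_univ]
  refine (Finset.sum_le_sum fun x _ => h3 x).trans (le_of_eq ?_)
  rw [Finset.sum_const, card_univ, nsmul_eq_mul, Fintype.card_fun, Fintype.card_fun,
    Fintype.card_bool, Fintype.card_fin, Nat.cast_pow, Nat.cast_pow, Nat.cast_ofNat, ← mul_pow]

theorem Bal_card (N M : ℕ) (hN : N = 2 * M) :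
    (2 : ℝ) ^ (N * Fintype.card J) ≤ ((N : ℝ) + 1) ^ Fintype.card J * ((Balf J N M).card : ℝ) := by
  have h1 : Balf J N M = Fintype.piFinset fun _ : J =>
      univ.filter fun z : Fin N → Bool => cnt z true = M := by
    ext x
    simp [Balf]
  have h2 : ((univ.filter fun z : Fin N → Bool => cnt z true = M).card) = N.choose M := by
    have h3 : N.choose M = (powersetCard M (univ : Finset (Fin N))).card := by
      rw [card_powersetCard, card_univ, Fintype.card_fin]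
    rw [h3]
    refine Finset.card_bij (fun z _ => univ.filter fun a => z a = true) ?_ ?_ ?_
    · intro z hz
      rw [mem_powersetCard]
      refine ⟨subset_univ _, ?_⟩
      have h4 := (mem_filter.1 hz).2
      unfold cnt at h4
      rw [← h4]
      congr
    · intro z _ z' _ hzz
      funext a
      have h4 : (a ∈ univ.filter fun a => z a = true) ↔ (a ∈ univ.filter fun a => z' a = true) := by
        rw [hzz]
      simp only [mem_filter, mem_univ, true_and] at h4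
      exact Bool.eq_iff_iff.2 h4
    · intro S hS
      rw [mem_powersetCard] at hS
      refine ⟨fun a => decide (a ∈ S), ?_, ?_⟩
      · rw [mem_filter]
        refine ⟨mem_univ _, ?_⟩
        unfold cnt
        rw [← hS.2]
        congr 1
        ext a
        simp
      · ext a
        simp
  rw [h1, Fintype.card_piFinset, Finset.prod_const, card_univ, h2, Nat.cast_pow, pow_mul,
    ← mul_pow]
  refine pow_le_pow_left₀ (by positivity) ?_ _
  have h4 : 2 ^ N ≤ (N + 1) * N.choose M := by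
    have h5 : 2 ^ N = ∑ m ∈ range (N + 1), N.choose m := (Nat.sum_range_choose N).symm
    rw [h5]
    calc ∑ m ∈ range (N + 1), N.choose m ≤ ∑ _m ∈ range (N + 1), N.choose M := by
          refine Finset.sum_le_sum fun m _ => ?_
          have := Nat.choose_le_middle m N
          have h6 : N / 2 = M := by omega
          rwa [h6] at this
      _ = _ := by rw [Finset.sum_const, card_range, smul_eq_mul]
  exact_mod_cast h4

end

theorem proof_MOMK (hUPG : S_UPG) (hRAT : S_RAT) (hHOEF : S_HOEF) (hLOWB : S_LOWB) : S_MOMK := by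
  intro R J _ _ _ _ A hA
  refine ⟨3 * Fintype.card J + 6 * (Fintype.card R * Fintype.card J), fun M N hM hN => ?_⟩
  have hN1 : 1 ≤ N := by omega
  set G := univ.filter fun π : R × J → Equiv.Perm (Fin N) => ∃ x : J → Fin N → Bool,
        ∀ i a, |∑ j, A i j * sg (x j (π (i, j) a))| ≤ 300 with hG
  set S1 := ∑ π, Z A N M π with hS1
  set S2 := ∑ π, Z A N M π ^ 2 with hS2
  set F : ℝ := (N.factorial : ℝ) ^ Fintype.card (R × J) with hF
  set p : ℝ := ∏ i, tot (A i) ^ N with hp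
  set T : ℝ := 3 * ((N : ℝ) + 1) with hT
  have hN0 : (0 : ℝ) ≤ N := Nat.cast_nonneg _
  have hT1 : 1 ≤ T := by rw [hT]; linarith
  have hppos : 0 < p := by
    refine Finset.prod_pos fun i _ => pow_pos ?_ _
    exact (hRAT J (A i) (fun _ => 0) (col_le A hA i) (by simp)).1
  have hF0 : 0 < F := by positivity
  -- Z positive implies a good signing
  have hpos : ∀ π, Z A N M π ≠ 0 → π ∈ G := by
    intro π hπ
    rw [hG, mem_filter]
    refine ⟨mem_univ _, ?_⟩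
    obtain ⟨x, -, hx⟩ := Finset.exists_ne_zero_of_sum_ne_zero hπ
    refine ⟨x, fun i a => ?_⟩
    rw [Finset.prod_ne_zero_iff] at hx
    have h1 := hx i (mem_univ _)
    rw [Finset.prod_ne_zero_iff] at h1
    have h2 := h1 a (mem_univ _)
    by_contra hcon
    push Not at hcon
    apply h2
    unfold Wt tent
    refine max_eq_left ?_
    have h3 : 300 < |lin (A i) (fun j => x j (π (i, j) a))| := hcon
    rw [sub_nonpos, one_le_div (by norm_num)]
    exact h3.le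
  -- Cauchy-Schwarz
  have hCS : S1 ^ 2 ≤ G.card * S2 := by
    have h1 : S1 = ∑ π ∈ G, Z A N M π := by
      rw [hS1]
      refine (Finset.sum_subset (subset_univ _) ?_).symm
      intro π _ hπ
      by_contra hne
      exact hπ (hpos π hne)
    rw [h1]
    refine (sq_sum_le_card_mul_sum_sq).trans ?_
    refine mul_le_mul_of_nonneg_left ?_ (Nat.cast_nonneg _)
    exact Finset.sum_le_sum_of_subset_of_nonneg (subset_univ _) fun _ _ _ => sq_nonneg _
  have hL := sum_Z_ge hLOWB A M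
  rw [← hN] at hL
  have h2M : 2 * (M : ℝ) = N := by rw [hN]; push_cast; ring
  rw [h2M] at hL
  have hU := sum_Zsq_le hUPG hRAT hHOEF A hA hN hN1
  have hB := Bal_card (J := J) N M hN
  set nJ := Fintype.card J with hnJ
  set nR := Fintype.card R with hnR
  set b : ℝ := ((Balf J N M).card : ℝ) with hb
  have hFe : ((N.factorial : ℝ) ^ nJ) ^ nR = F := by
    rw [hF, Fintype.card_prod, ← pow_mul, mul_comm]
  rw [hFe] at hL
  have hL' : b * F * p ≤ (((2 : ℝ) ^ N * ((N : ℝ) + 1)) ^ nJ) ^ nR * S1 := hL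
  have hU' : S2 ≤ (((N.factorial : ℝ) * T ^ 4) ^ nJ) ^ nR * (((1 / 4 : ℝ) ^ nJ) ^ N) ^ nR * p ^ 2 *
      (2 ^ N * (((N : ℝ) + 1) * 2 ^ N)) ^ nJ := hU
  have e1 : (((N.factorial : ℝ) * T ^ 4) ^ nJ) ^ nR = F * T ^ (4 * nR * nJ) := by
    rw [mul_pow, mul_pow, hFe, ← pow_mul, ← pow_mul]
    congr 2; ring
  rw [e1] at hU'
  have hNT : (N : ℝ) + 1 ≤ T := by rw [hT]; linarith
  -- combine
  have s1 : (2 : ℝ) ^ (N * nJ) * (F * p) ≤ T ^ nJ * (((2 : ℝ) ^ N * T) ^ nJ) ^ nR * S1 := by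
    have hS10 : 0 ≤ S1 := Finset.sum_nonneg fun π _ => Z_nonneg _ _ _ _
    calc (2 : ℝ) ^ (N * nJ) * (F * p) ≤ (((N : ℝ) + 1) ^ nJ * b) * (F * p) :=
          mul_le_mul_of_nonneg_right hB (by positivity)
      _ = ((N : ℝ) + 1) ^ nJ * (b * F * p) := by ring
      _ ≤ ((N : ℝ) + 1) ^ nJ * ((((2 : ℝ) ^ N * ((N : ℝ) + 1)) ^ nJ) ^ nR * S1) :=
          mul_le_mul_of_nonneg_left hL' (by positivity)
      _ ≤ T ^ nJ * ((((2 : ℝ) ^ N * T) ^ nJ) ^ nR * S1) := by gcongr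
      _ = _ := by ring
  have s2 : S2 ≤ F * T ^ (4 * nR * nJ) * (((1 / 4 : ℝ) ^ nJ) ^ N) ^ nR * p ^ 2 *
      (2 ^ N * (T * 2 ^ N)) ^ nJ := by
    refine hU'.trans ?_
    gcongr
  have s3 : ((2 : ℝ) ^ (N * nJ) * (F * p)) ^ 2 ≤
      (T ^ nJ * (((2 : ℝ) ^ N * T) ^ nJ) ^ nR) ^ 2 * (G.card * (F * T ^ (4 * nR * nJ) *
        (((1 / 4 : ℝ) ^ nJ) ^ N) ^ nR * p ^ 2 * (2 ^ N * (T * 2 ^ N)) ^ nJ)) := by
    calc ((2 : ℝ) ^ (N * nJ) * (F * p)) ^ 2 ≤
        (T ^ nJ * (((2 : ℝ) ^ N * T) ^ nJ) ^ nR * S1) ^ 2 :=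
          pow_le_pow_left₀ (by positivity) s1 2
      _ = (T ^ nJ * (((2 : ℝ) ^ N * T) ^ nJ) ^ nR) ^ 2 * S1 ^ 2 := by ring
      _ ≤ (T ^ nJ * (((2 : ℝ) ^ N * T) ^ nJ) ^ nR) ^ 2 * (G.card * S2) :=
          mul_le_mul_of_nonneg_left hCS (sq_nonneg _)
      _ ≤ _ := by gcongr
  have e4 : (((2 : ℝ) ^ N * T) ^ nJ) ^ nR = 2 ^ (N * nJ * nR) * T ^ (nJ * nR) := by
    rw [mul_pow, mul_pow, ← pow_mul, ← pow_mul, ← pow_mul, mul_assoc N nJ nR]
  have e5 : (((1 / 4 : ℝ) ^ nJ) ^ N) ^ nR * (2 ^ (N * nJ * nR)) ^ 2 = 1 := by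
    rw [← pow_mul, ← pow_mul, ← pow_mul, show nJ * (N * nR) = N * nJ * nR by ring,
      mul_comm (N * nJ * nR) 2, pow_mul 2 2, ← mul_pow]
    norm_num
  have e6 : (2 ^ N * (T * 2 ^ N)) ^ nJ = T ^ nJ * (2 ^ (N * nJ)) ^ 2 := by
    rw [show (2 : ℝ) ^ N * (T * 2 ^ N) = T * (2 ^ N) ^ 2 by ring, mul_pow, ← pow_mul, ← pow_mul,
      ← pow_mul]
    congr 2; ring
  have s4 : ((2 : ℝ) ^ (N * nJ)) ^ 2 * F * p ^ 2 * F ≤ ((2 : ℝ) ^ (N * nJ)) ^ 2 * F * p ^ 2 *
      (T ^ (3 * nJ + 6 * (nR * nJ)) * G.card) := by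
    have l1 : ((2 : ℝ) ^ (N * nJ)) ^ 2 * F * p ^ 2 * F = ((2 : ℝ) ^ (N * nJ) * (F * p)) ^ 2 := by
      ring
    have l2 : (T ^ nJ * (((2 : ℝ) ^ N * T) ^ nJ) ^ nR) ^ 2 * (G.card * (F * T ^ (4 * nR * nJ) *
        (((1 / 4 : ℝ) ^ nJ) ^ N) ^ nR * p ^ 2 * (2 ^ N * (T * 2 ^ N)) ^ nJ)) =
        ((((1 / 4 : ℝ) ^ nJ) ^ N) ^ nR * (2 ^ (N * nJ * nR)) ^ 2) *
        (((2 : ℝ) ^ (N * nJ)) ^ 2 * F * p ^ 2 * (T ^ (3 * nJ + 6 * (nR * nJ)) * G.card)) := by
      rw [e4, e6]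
      have l3 : T ^ (3 * nJ + 6 * (nR * nJ)) = T ^ nJ * T ^ nJ * T ^ nJ * T ^ (nJ * nR) *
          T ^ (nJ * nR) * T ^ (4 * nR * nJ) := by
        rw [← pow_add, ← pow_add, ← pow_add, ← pow_add, ← pow_add]
        congr 1; ring
      rw [l3]; ring
    rw [l1]
    refine s3.trans (le_of_eq ?_)
    rw [l2, e5, one_mul]
  have hc : 0 < ((2 : ℝ) ^ (N * nJ)) ^ 2 * F * p ^ 2 := by positivity
  exact le_of_mul_le_mul_left s4 hc

end Pool.Agent.N404.KL
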