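import Pool.Agent.N404.KL.Stm

set_option autoImplicit false

/-! The second moment of one row. -/

namespace Pool.Agent.N404.KL

open Finset Classical Pool.Agent.N404.LF

theorem sg_not (b : Bool) : sg (!b) = - sg b := by cases b <;> simp [sg]

theorem sg_mul_self (b : Bool) : sg b * sg b = 1 := by cases b <;> simp [sg]

theorem abs_sg (b : Bool) : |sg b| = 1 := by cases b <;> simp [sg]

theorem tent_nonneg (C u : ℝ) : 0 ≤ tent C u := le_max_left _ _

theorem tent_neg (C u : ℝ) : tent C (-u) = tent C u := by unfold tent; rw [abs_neg]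

theorem tent_ge (C u : ℝ) : 1 - |u| / C ≤ tent C u := le_max_right _ _

theorem tent_le_one {C u : ℝ} (hC : 0 < C) : tent C u ≤ 1 := by
  unfold tent
  refine max_le zero_le_one ?_
  have : 0 ≤ |u| / C := by positivity
  linarith

section
variable {J : Type} [Fintype J] [DecidableEq J]

/-- the linear form -/
noncomputable def lin (α : J → ℝ) (e : J → Bool) : ℝ := ∑ k, α k * sg (e k)

/-- negation of all bits -/
def negE : (J → Bool) ≃ (J → Bool) where
  toFun e := fun j => !(e j)
  invFun e := fun j => !(e j)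
  left_inv e := by funext j; simp
  right_inv e := by funext j; simp

/-- flip of one bit -/
def flipE (j : J) : (J → Bool) ≃ (J → Bool) where
  toFun e := Function.update e j (!(e j))
  invFun e := Function.update e j (!(e j))
  left_inv e := by
    funext k
    by_cases h : k = j
    · subst h; simp
    · simp [h]
  right_inv e := by
    funext k
    by_cases h : k = j
    · subst h; simp
    · simp [h]

theorem sum_sg_mul (j k : J) (hjk : j ≠ k) : ∑ e : J → Bool, sg (e j) * sg (e k) = 0 := by
  have h := Equiv.sum_comp (flipE j) (fun e : J → Bool => sg (e j) * sg (e k))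
  have h2 : ∀ e : J → Bool, sg ((flipE j e) j) * sg ((flipE j e) k) = -(sg (e j) * sg (e k)) := by
    intro e
    have e1 : (flipE j e) j = !(e j) := by simp [flipE]
    have e2 : (flipE j e) k = e k := by simp [flipE, hjk.symm]
    rw [e1, e2, sg_not]; ring
  rw [Finset.sum_congr rfl (fun e _ => h2 e), Finset.sum_neg_distrib] at h
  linarith

theorem sum_lin_sq (α : J → ℝ) :
    ∑ e : J → Bool, (lin α e) ^ 2 = 2 ^ Fintype.card J * ∑ j, α j ^ 2 := by
  have h1 : ∀ e : J → Bool, (lin α e) ^ 2 = ∑ j, ∑ k, α j * α k * (sg (e j) * sg (e k)) := by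
    intro e
    unfold lin
    rw [sq, Finset.sum_mul_sum]
    refine Finset.sum_congr rfl fun j _ => Finset.sum_congr rfl fun k _ => by ring
  rw [Finset.sum_congr rfl (fun e _ => h1 e), Finset.sum_comm, Finset.mul_sum]
  refine Finset.sum_congr rfl fun j _ => ?_
  rw [Finset.sum_comm, Finset.sum_eq_single j]
  · rw [← Finset.mul_sum]
    have : ∑ e : J → Bool, sg (e j) * sg (e j) = 2 ^ Fintype.card J := by
      rw [Finset.sum_congr rfl (fun e _ => sg_mul_self (e j))]
      simp
    rw [this]; ring
  · intro k _ hk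
    rw [← Finset.mul_sum, sum_sg_mul j k (Ne.symm hk), mul_zero]
  · intro h; exact absurd (mem_univ _) h

/-- the sum over `e'` of the product -/
theorem sum_prod_one (j : J) (s : ℝ) (e : J → Bool) :
    ∑ e' : J → Bool, ∏ k ∈ univ.erase j, (1 + s * sg (e k) * sg (e' k)) = 2 ^ Fintype.card J := by
  have h1 : ∀ e' : J → Bool, ∏ k ∈ univ.erase j, (1 + s * sg (e k) * sg (e' k)) =
      ∏ k, (if k = j then (1 : ℝ) else (1 + s * sg (e k) * sg (e' k))) := by
    intro e'
    rw [← Finset.mul_prod_erase univ _ (mem_univ j), if_pos rfl, one_mul]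
    refine Finset.prod_congr rfl fun k hk => ?_
    rw [if_neg (Finset.ne_of_mem_erase hk)]
  rw [Finset.sum_congr rfl (fun e' _ => h1 e')]
  rw [← Fintype.prod_sum (fun (k : J) (b : Bool) =>
    (if k = j then (1 : ℝ) else (1 + s * sg (e k) * sg b)))]
  have h2 : ∀ k : J, ∑ b : Bool, (if k = j then (1 : ℝ) else (1 + s * sg (e k) * sg b)) = 2 := by
    intro k
    rw [Fintype.sum_bool]
    split_ifs
    · norm_num
    · simp [sg]; ring
  rw [Finset.prod_congr rfl (fun k _ => h2 k), Finset.prod_const, card_univ]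

theorem prod_nonneg' (j : J) {s : ℝ} (h0 : 0 ≤ s) (h1 : s ≤ 1) (e e' : J → Bool) :
    0 ≤ ∏ k ∈ univ.erase j, (1 + s * sg (e k) * sg (e' k)) := by
  refine Finset.prod_nonneg fun k _ => ?_
  have h2 : |s * sg (e k) * sg (e' k)| ≤ 1 := by
    rw [abs_mul, abs_mul, abs_sg, abs_sg, abs_of_nonneg h0]; linarith
  have := (abs_le.1 h2).1
  linarith

end

end Pool.Agent.N404.KL
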