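import Pool.Agent.N404.KL.Rat

set_option autoImplicit false

/-! The second moment of one row. -/

namespace Pool.Agent.N404.KL

open Finset Classical Pool.Agent.N404.LF MeasureTheory

section
variable {J : Type} [Fintype J] [DecidableEq J]

/-- the sum of the weights -/
noncomputable def tot (α : J → ℝ) : ℝ := ∑ e : J → Bool, tent 300 (lin α e)

theorem tot_small (α : J → ℝ) (h : ∑ j, α j ^ 2 ≤ 150 ^ 2) : 2 ^ Fintype.card J / 2 ≤ tot α := by
  have h1 : ∀ e : J → Bool, 3 / 4 - (lin α e) ^ 2 / 90000 ≤ tent 300 (lin α e) := by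
    intro e
    refine le_trans ?_ (tent_ge _ _)
    have h2 : (lin α e) ^ 2 = |lin α e| ^ 2 := (sq_abs _).symm
    rw [h2]
    nlinarith [sq_nonneg (|lin α e| - 150)]
  have h2 : ∑ e : J → Bool, (3 / 4 - (lin α e) ^ 2 / 90000) ≤ tot α :=
    Finset.sum_le_sum fun e _ => h1 e
  have e1 : ∑ _e : J → Bool, (3 / 4 : ℝ) = 2 ^ Fintype.card J * (3 / 4) := by simp
  have e2 : ∑ e : J → Bool, (lin α e) ^ 2 / 90000 =
      2 ^ Fintype.card J * (∑ j, α j ^ 2) / 90000 := by
    rw [← Finset.sum_div, sum_lin_sq]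
  rw [Finset.sum_sub_distrib, e1, e2] at h2
  have h3 : (0 : ℝ) < 2 ^ Fintype.card J := by positivity
  nlinarith

theorem tot_large (hREFL : S_REFL) (α : J → ℝ) (hα : ∀ j, |α j| ≤ 1) (σ : ℝ) (hσ : 150 ≤ σ)
    (h : ∑ j, α j ^ 2 ≤ σ ^ 2) : 150 * 2 ^ Fintype.card J ≤ 16 * σ * tot α := by
  have h1 := hREFL J α 150 σ hα (by norm_num) hσ h
  have h2 : ((univ.filter fun e : J → Bool => |∑ j, α j * sg (e j)| ≤ 150).card : ℝ) ≤
      2 * tot α := by
    rw [Finset.card_filter]
    push_cast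
    unfold tot
    rw [Finset.mul_sum]
    refine Finset.sum_le_sum fun e _ => ?_
    split_ifs with h3
    · have := tent_ge 300 (lin α e)
      unfold lin at this ⊢
      linarith
    · have := tent_nonneg 300 (lin α e)
      linarith
  nlinarith

/-- one small ball probability -/
theorem ball_one (hESS : S_ESS) (β : J → ℝ) (hβ : ∀ j, |β j| ≤ 1) :
    ((univ.filter fun e : J → Bool => |∑ k, β k * sg (e k)| ≤ 301).card : ℝ) *
      Real.sqrt (∑ k, β k ^ 2) ≤ 1204 * 2 ^ Fintype.card J := by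
  have h1 := hESS J β (fun _ => 0) 301 (fun _ => true) hβ (fun _ => le_rfl) (fun _ => zero_le_one)
    (by norm_num)
  have h2 : (∑ e' : J → Bool, if |∑ k, β k * sg (e' k)| ≤ 301 then
      ∏ _k : J, ((1 + (0 : ℝ) * sg true * sg (e' _k)) / 2) else 0) =
      ((univ.filter fun e : J → Bool => |∑ k, β k * sg (e k)| ≤ 301).card : ℝ) /
        2 ^ Fintype.card J := by
    rw [Finset.card_filter]
    push_cast
    rw [Finset.sum_div]
    refine Finset.sum_congr rfl fun e _ => ?_
    split_ifs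
    · simp
    · simp
  have h3 : ∑ k, (1 - (0 : ℝ)) * β k ^ 2 = ∑ k, β k ^ 2 := by simp
  simp only [h3] at h1
  rw [h2] at h1
  have h4 : (0 : ℝ) < 2 ^ Fintype.card J := by positivity
  rw [div_mul_eq_mul_div, div_le_iff₀ h4] at h1
  linarith

/-- the sum over `e'` -/
theorem ball_two (hESS : S_ESS) (α : J → ℝ) (hα : ∀ j, |α j| ≤ 1) (j : J) {s : ℝ} (h0 : 0 ≤ s)
    (h1 : s ≤ 1) (e : J → Bool) :
    (∑ e' : J → Bool, if |∑ k ∈ univ.erase j, α k * sg (e' k)| ≤ 301 then
      ∏ k ∈ univ.erase j, (1 + s * sg (e k) * sg (e' k)) else 0) *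
      Real.sqrt ((1 - s) * ∑ k ∈ univ.erase j, α k ^ 2) ≤ 1204 * 2 ^ Fintype.card J := by
  have h2 := hESS J (fun k => if k = j then 0 else α k) (fun k => if k = j then 0 else s) 301 e
    (by intro k; split_ifs
        · simp
        · exact hα k)
    (by intro k; split_ifs
        · exact le_rfl
        · exact h0)
    (by intro k; split_ifs
        · exact zero_le_one
        · exact h1) (by norm_num)
  have e1 : ∀ e' : J → Bool, ∑ k, (if k = j then 0 else α k) * sg (e' k) =
      ∑ k ∈ univ.erase j, α k * sg (e' k) := by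
    intro e'
    rw [← Finset.add_sum_erase univ _ (mem_univ j), if_pos rfl, zero_mul, zero_add]
    refine Finset.sum_congr rfl fun k hk => ?_
    rw [if_neg (Finset.ne_of_mem_erase hk)]
  have e2 : ∀ e' : J → Bool, ∏ k, ((1 + (if k = j then 0 else s) * sg (e k) * sg (e' k)) / 2) =
      (∏ k ∈ univ.erase j, (1 + s * sg (e k) * sg (e' k))) / 2 ^ Fintype.card J := by
    intro e'
    rw [Finset.prod_div_distrib, Finset.prod_const, card_univ,
      ← Finset.mul_prod_erase univ _ (mem_univ j), if_pos rfl, zero_mul, zero_mul, add_zero,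
      one_mul]
    congr 1
    refine Finset.prod_congr rfl fun k hk => ?_
    rw [if_neg (Finset.ne_of_mem_erase hk)]
  have e3 : ∑ k, (1 - (if k = j then 0 else s)) * (if k = j then 0 else α k) ^ 2 =
      (1 - s) * ∑ k ∈ univ.erase j, α k ^ 2 := by
    rw [← Finset.add_sum_erase univ _ (mem_univ j), if_pos rfl, if_pos rfl, Finset.mul_sum]
    simp only [ne_eq, OfNat.ofNat_ne_zero, not_false_eq_true, zero_pow, mul_zero, zero_add]
    refine Finset.sum_congr rfl fun k hk => ?_
    rw [if_neg (Finset.ne_of_mem_erase hk), if_neg (Finset.ne_of_mem_erase hk)]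
  simp only [e1, e2, e3] at h2
  have h4 : (0 : ℝ) < 2 ^ Fintype.card J := by positivity
  have e4 : (∑ e' : J → Bool, if |∑ k ∈ univ.erase j, α k * sg (e' k)| ≤ 301 then
      (∏ k ∈ univ.erase j, (1 + s * sg (e k) * sg (e' k))) / 2 ^ Fintype.card J else 0) =
      (∑ e' : J → Bool, if |∑ k ∈ univ.erase j, α k * sg (e' k)| ≤ 301 then
      (∏ k ∈ univ.erase j, (1 + s * sg (e k) * sg (e' k))) else 0) / 2 ^ Fintype.card J := by
    rw [Finset.sum_div]
    refine Finset.sum_congr rfl fun e' _ => ?_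
    split_ifs
    · rfl
    · simp
  rw [e4, div_mul_eq_mul_div, div_le_iff₀ h4] at h2
  linarith

/-- the double sum -/
noncomputable def dbl (α : J → ℝ) (j : J) (s : ℝ) : ℝ :=
  ∑ e : J → Bool, ∑ e' : J → Bool,
      if |∑ k ∈ univ.erase j, α k * sg (e k)| ≤ 300 + 1 ∧
          |∑ k ∈ univ.erase j, α k * sg (e' k)| ≤ 300 + 1 then
        ∏ k ∈ univ.erase j, (1 + s * sg (e k) * sg (e' k)) else 0

theorem dbl_le (α : J → ℝ) (j : J) {s : ℝ} (h0 : 0 ≤ s) (h1 : s ≤ 1) :
    dbl α j s ≤ 2 ^ Fintype.card J * 2 ^ Fintype.card J := by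
  unfold dbl
  calc _ ≤ ∑ _e : J → Bool, (2 : ℝ) ^ Fintype.card J := by
        refine Finset.sum_le_sum fun e _ => ?_
        rw [← sum_prod_one j s e]
        refine Finset.sum_le_sum fun e' _ => ?_
        split_ifs
        · exact le_rfl
        · exact prod_nonneg' j h0 h1 e e'
    _ = _ := by simp

theorem dbl_le2 (hESS : S_ESS) (α : J → ℝ) (hα : ∀ j, |α j| ≤ 1) (j : J) {s : ℝ} (h0 : 0 ≤ s)
    (h1 : s ≤ 1) : dbl α j s * (Real.sqrt (1 - s) * ∑ k ∈ univ.erase j, α k ^ 2) ≤
      (1204 * 2 ^ Fintype.card J) ^ 2 := by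
  set v := ∑ k ∈ univ.erase j, α k ^ 2 with hv
  have hv0 : 0 ≤ v := Finset.sum_nonneg fun k _ => sq_nonneg _
  have e0 : Real.sqrt (1 - s) * v = Real.sqrt ((1 - s) * v) * Real.sqrt v := by
    rw [Real.sqrt_mul (by linarith), mul_assoc, Real.mul_self_sqrt hv0]
  set S := ∑ e : J → Bool, (if |∑ k ∈ univ.erase j, α k * sg (e k)| ≤ 301 then
      ∑ e' : J → Bool, (if |∑ k ∈ univ.erase j, α k * sg (e' k)| ≤ 301 then
      ∏ k ∈ univ.erase j, (1 + s * sg (e k) * sg (e' k)) else 0) else 0) with hS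
  have e1 : dbl α j s = S := by
    unfold dbl
    rw [hS]
    refine Finset.sum_congr rfl fun e _ => ?_
    have h301 : (300 : ℝ) + 1 = 301 := by norm_num
    rw [h301]
    by_cases h2 : |∑ k ∈ univ.erase j, α k * sg (e k)| ≤ 301
    · simp only [h2, true_and, if_true]
    · simp only [h2, false_and, if_false, Finset.sum_const_zero]
  have e2 : S * Real.sqrt ((1 - s) * v) ≤
      ((univ.filter fun e : J → Bool => |∑ k ∈ univ.erase j, α k * sg (e k)| ≤ 301).card : ℝ) *
        (1204 * 2 ^ Fintype.card J) := by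
    rw [Finset.card_filter]
    push_cast
    rw [hS, Finset.sum_mul, Finset.sum_mul]
    refine Finset.sum_le_sum fun e _ => ?_
    split_ifs
    · rw [one_mul]; exact ball_two hESS α hα j h0 h1 e
    · simp
  have e3 : ((univ.filter fun e : J → Bool =>
      |∑ k ∈ univ.erase j, α k * sg (e k)| ≤ 301).card : ℝ) * Real.sqrt v ≤
      1204 * 2 ^ Fintype.card J := by
    have h2 := ball_one hESS (fun k => if k = j then 0 else α k)
      (by intro k; split_ifs
          · simp
          · exact hα k)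
    have e4 : ∀ e' : J → Bool, ∑ k, (if k = j then 0 else α k) * sg (e' k) =
        ∑ k ∈ univ.erase j, α k * sg (e' k) := by
      intro e'
      rw [← Finset.add_sum_erase univ _ (mem_univ j), if_pos rfl, zero_mul, zero_add]
      refine Finset.sum_congr rfl fun k hk => ?_
      rw [if_neg (Finset.ne_of_mem_erase hk)]
    have e5 : ∑ k, (if k = j then 0 else α k) ^ 2 = v := by
      rw [← Finset.add_sum_erase univ _ (mem_univ j), if_pos rfl, hv]
      simp only [ne_eq, OfNat.ofNat_ne_zero, not_false_eq_true, zero_pow, zero_add]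
      refine Finset.sum_congr rfl fun k hk => ?_
      rw [if_neg (Finset.ne_of_mem_erase hk)]
    simp only [e4, e5] at h2
    exact h2
  rw [e1, e0]
  calc S * (Real.sqrt ((1 - s) * v) * Real.sqrt v)
      = (S * Real.sqrt ((1 - s) * v)) * Real.sqrt v := by ring
    _ ≤ (((univ.filter fun e : J → Bool =>
          |∑ k ∈ univ.erase j, α k * sg (e k)| ≤ 301).card : ℝ) *
        (1204 * 2 ^ Fintype.card J)) * Real.sqrt v :=
        mul_le_mul_of_nonneg_right e2 (Real.sqrt_nonneg _)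
    _ = (((univ.filter fun e : J → Bool =>
          |∑ k ∈ univ.erase j, α k * sg (e k)| ≤ 301).card : ℝ) * Real.sqrt v) *
        (1204 * 2 ^ Fintype.card J) := by ring
    _ ≤ (1204 * 2 ^ Fintype.card J) * (1204 * 2 ^ Fintype.card J) :=
        mul_le_mul_of_nonneg_right e3 (by positivity)
    _ = _ := by ring

theorem inv_sqrt_integrable :
    IntervalIntegrable (fun s : ℝ => (1 - s) ^ (-(1 / 2) : ℝ)) volume 0 1 := by
  have h := (intervalIntegral.intervalIntegrable_rpow' (a := 0) (b := 1)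
    (show (-1 : ℝ) < -(1 / 2) by norm_num)).comp_sub_left 1
  simp only [sub_zero, sub_self] at h
  exact h.symm

theorem inv_sqrt_integral : ∫ s in (0 : ℝ)..1, (1 - s) ^ (-(1 / 2) : ℝ) = 2 := by
  rw [intervalIntegral.integral_comp_sub_left (fun x : ℝ => x ^ (-(1 / 2) : ℝ)) 1,
    integral_rpow (Or.inl (by norm_num))]
  norm_num

theorem gamma_cont (g : (J → Bool) → ℝ) (j : J) : Continuous fun s : ℝ => ∑ e, ∑ e',
      g e * g e' * (sg (e j) * sg (e' j)) * ∏ k ∈ univ.erase j, (1 + s * sg (e k) * sg (e' k)) := by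
  fun_prop

theorem proof_RAT (hFOUR : S_FOUR) (hDER : S_DER) (hESS : S_ESS) (hREFL : S_REFL) : S_RAT := by
  intro J _ _ α ρ hα hρ
  set P := tot α with hP
  have hP' : ∑ e : J → Bool, tent 300 (∑ k, α k * sg (e k)) = P := rfl
  have h2n : (0 : ℝ) < 2 ^ Fintype.card J := by positivity
  have key : 0 < P ∧ ∀ j : J, (∫ s in (0 : ℝ)..1, ∑ e : J → Bool, ∑ e' : J → Bool,
      tent 300 (lin α e) * tent 300 (lin α e') * (sg (e j) * sg (e' j)) *
        ∏ k ∈ univ.erase j, (1 + s * sg (e k) * sg (e' k))) ≤ 1 / 2 * α j ^ 2 * P ^ 2 := by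
    have hG : ∀ (j : J) (s : ℝ), 0 ≤ s → s ≤ 1 → ∑ e : J → Bool, ∑ e' : J → Bool,
        tent 300 (lin α e) * tent 300 (lin α e') * (sg (e j) * sg (e' j)) *
          ∏ k ∈ univ.erase j, (1 + s * sg (e k) * sg (e' k)) ≤
        α j ^ 2 / 300 ^ 2 * dbl α j s := by
      intro j s h0 h1
      exact hDER J α 300 s j (by norm_num) hα h0 h1
    rcases le_or_gt (∑ j, α j ^ 2) (150 ^ 2) with hs | hs
    · have hlow := tot_small α hs
      refine ⟨by linarith, fun j => ?_⟩
      have h1 : (∫ s in (0 : ℝ)..1, ∑ e : J → Bool, ∑ e' : J → Bool,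
          tent 300 (lin α e) * tent 300 (lin α e') * (sg (e j) * sg (e' j)) *
          ∏ k ∈ univ.erase j, (1 + s * sg (e k) * sg (e' k))) ≤
          ∫ _s in (0 : ℝ)..1, α j ^ 2 / 300 ^ 2 * (2 ^ Fintype.card J * 2 ^ Fintype.card J) := by
        refine intervalIntegral.integral_mono_on zero_le_one
          ((gamma_cont _ j).intervalIntegrable 0 1) intervalIntegrable_const ?_
        intro s hs
        refine (hG j s hs.1 hs.2).trans ?_
        exact mul_le_mul_of_nonneg_left (dbl_le α j hs.1 hs.2) (by positivity)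
      refine h1.trans ?_
      rw [intervalIntegral.integral_const, sub_zero, one_smul]
      have h3 : (2 ^ Fintype.card J / 2) * (2 ^ Fintype.card J / 2) ≤ P * P :=
        mul_le_mul hlow hlow (by positivity) (by linarith)
      have h4 : 0 ≤ α j ^ 2 := sq_nonneg _
      have h5 : α j ^ 2 * ((2 ^ Fintype.card J / 2) * (2 ^ Fintype.card J / 2)) ≤
        α j ^ 2 * (P * P) := mul_le_mul_of_nonneg_left h3 h4
      have h6 : 0 ≤ α j ^ 2 * (2 ^ Fintype.card J * 2 ^ Fintype.card J) := by positivity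
      nlinarith
    · set σ := Real.sqrt (∑ j, α j ^ 2) with hσ
      have hv0 : 0 ≤ ∑ j, α j ^ 2 := Finset.sum_nonneg fun k _ => sq_nonneg _
      have hσ2 : σ ^ 2 = ∑ j, α j ^ 2 := Real.sq_sqrt hv0
      have hσ150 : 150 < σ := by
        rw [hσ]; exact Real.lt_sqrt_of_sq_lt hs
      have hlow := tot_large hREFL α hα σ hσ150.le hσ2.symm.le
      have hPpos : 0 < P := by
        by_contra hneg
        push Not at hneg
        have h1 : 16 * σ * P ≤ 0 := mul_nonpos_of_nonneg_of_nonpos (by linarith) hneg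
        have h2 : 0 < 150 * (2 : ℝ) ^ Fintype.card J := by positivity
        linarith
      refine ⟨hPpos, fun j => ?_⟩
      set v := ∑ k ∈ univ.erase j, α k ^ 2 with hv
      have hvσ : σ ^ 2 - 1 ≤ v := by
        rw [hσ2, hv, ← Finset.add_sum_erase univ _ (mem_univ j)]
        have := hα j
        have h3 : α j ^ 2 ≤ 1 := by
          rw [← sq_abs]; exact pow_le_one₀ (abs_nonneg _) this
        linarith
      have hvpos : 0 < v := by nlinarith
      set Q : ℝ := α j ^ 2 / 300 ^ 2 * ((1204 * 2 ^ Fintype.card J) ^ 2 / v) with hQ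
      have hQ0 : 0 ≤ Q := by positivity
      have h1 : (∫ s in (0 : ℝ)..1, ∑ e : J → Bool, ∑ e' : J → Bool,
          tent 300 (lin α e) * tent 300 (lin α e') * (sg (e j) * sg (e' j)) *
          ∏ k ∈ univ.erase j, (1 + s * sg (e k) * sg (e' k))) ≤
          ∫ s in (0 : ℝ)..1, Q * (1 - s) ^ (-(1 / 2) : ℝ) := by
        refine intervalIntegral.integral_mono_on_of_le_Ioo zero_le_one
          ((gamma_cont _ j).intervalIntegrable 0 1) (inv_sqrt_integrable.const_mul Q) ?_
        intro s hs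
        refine (hG j s hs.1.le hs.2.le).trans ?_
        have h1s : 0 < 1 - s := by linarith [hs.2]
        have hd := dbl_le2 hESS α hα j hs.1.le hs.2.le
        have hsq : 0 < Real.sqrt (1 - s) := Real.sqrt_pos.2 h1s
        have e1 : (1 - s) ^ (-(1 / 2) : ℝ) = (Real.sqrt (1 - s))⁻¹ := by
          rw [Real.rpow_neg h1s.le, Real.sqrt_eq_rpow]
        rw [e1, hQ, mul_assoc]
        refine mul_le_mul_of_nonneg_left ?_ (by positivity)
        rw [← div_eq_mul_inv, div_div, le_div_iff₀ (by positivity)]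
        calc dbl α j s * (v * Real.sqrt (1 - s)) = dbl α j s * (Real.sqrt (1 - s) * v) := by ring
          _ ≤ _ := hd
      refine h1.trans ?_
      rw [intervalIntegral.integral_const_mul, inv_sqrt_integral]
      -- numbers
      have h3 : (150 * 2 ^ Fintype.card J) ^ 2 ≤ (16 * σ * P) ^ 2 :=
        pow_le_pow_left₀ (by positivity) hlow 2
      have h4 : σ ^ 2 ≤ 22500 / 22499 * v := by nlinarith
      have h5 : (2 ^ Fintype.card J : ℝ) ^ 2 * 22500 ≤ 256 * (22500 / 22499 * v) * P ^ 2 := by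
        have : (16 * σ * P) ^ 2 = 256 * σ ^ 2 * P ^ 2 := by ring
        rw [this] at h3
        have h6 : σ ^ 2 * P ^ 2 ≤ 22500 / 22499 * v * P ^ 2 :=
          mul_le_mul_of_nonneg_right h4 (sq_nonneg _)
        nlinarith
      rw [hQ]
      have e2 : α j ^ 2 / 300 ^ 2 * ((1204 * 2 ^ Fintype.card J) ^ 2 / v) * 2 =
          α j ^ 2 * ((2 * 1204 ^ 2 / 300 ^ 2) * ((2 ^ Fintype.card J) ^ 2 / v)) := by ring
      rw [e2]
      have e3 : 1 / 2 * α j ^ 2 * P ^ 2 = α j ^ 2 * (1 / 2 * P ^ 2) := by ring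
      rw [e3]
      refine mul_le_mul_of_nonneg_left ?_ (sq_nonneg _)
      rw [← mul_div_assoc, div_le_iff₀ hvpos]
      have h7 : 0 ≤ v * P ^ 2 := by positivity
      nlinarith
  obtain ⟨hPpos, hint⟩ := key
  rw [hP']
  refine ⟨hPpos, ?_⟩
  have heven : ∀ e : J → Bool, tent 300 (lin α (fun j => !(e j))) = tent 300 (lin α e) := by
    intro e
    have : lin α (fun j => !(e j)) = - lin α e := by
      unfold lin
      rw [← Finset.sum_neg_distrib]
      refine Finset.sum_congr rfl fun k _ => ?_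
      rw [sg_not]; ring
    rw [this, tent_neg]
  have h1 := hFOUR J (fun e => tent 300 (lin α e)) ρ heven hρ
  refine h1.trans ?_
  have h2 : ∑ j, ρ j ^ 2 * (∫ s in (0 : ℝ)..1, ∑ e : J → Bool, ∑ e' : J → Bool,
      tent 300 (lin α e) * tent 300 (lin α e') * (sg (e j) * sg (e' j)) *
        ∏ k ∈ univ.erase j, (1 + s * sg (e k) * sg (e' k))) ≤
      P ^ 2 * (1 / 2 * ∑ j, α j ^ 2 * ρ j ^ 2) := by
    rw [Finset.mul_sum, Finset.mul_sum]
    refine Finset.sum_le_sum fun j _ => ?_
    calc _ ≤ ρ j ^ 2 * (1 / 2 * α j ^ 2 * P ^ 2) :=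
          mul_le_mul_of_nonneg_left (hint j) (sq_nonneg _)
      _ = _ := by ring
  have h3 : (1 : ℝ) + 1 / 2 * ∑ j, α j ^ 2 * ρ j ^ 2 ≤
      Real.exp (1 / 2 * ∑ j, α j ^ 2 * ρ j ^ 2) := by
    rw [add_comm]; exact Real.add_one_le_exp _
  have h4 : P ^ 2 * (1 + 1 / 2 * ∑ j, α j ^ 2 * ρ j ^ 2) ≤
      P ^ 2 * Real.exp (1 / 2 * ∑ j, α j ^ 2 * ρ j ^ 2) :=
    mul_le_mul_of_nonneg_left h3 (sq_nonneg _)
  have h5 : (∑ e : J → Bool, tent 300 (lin α e)) = P := rfl
  simp only [h5]
  linarith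

end

end Pool.Agent.N404.KL
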